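import Pool.Agent.Y263.HT.Stm

set_option autoImplicit false

/-! Core of project HT: random translates. -/

namespace Pool.Agent.Y263.HT

open MeasureTheory Filter Topology

theorem pt_cont {ι : Type} : Continuous (fun q : (ι → ℝ) × (ι → ℝ) => pt q.1 q.2) := by
  unfold pt
  fun_prop

theorem pt_im {ι : Type} (x y : ι → ℝ) : (fun k => (pt x y k).im) = y := by
  funext k
  simp [pt]

theorem tube_open {ι : Type} [Fintype ι] {Γ : Set (ι → ℝ)} (h : IsOpen Γ) :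
    IsOpen {z : ι → ℂ | (fun k => (z k).im) ∈ Γ} := by
  refine h.preimage ?_
  fun_prop

/-- Boundedness tested on a countable set. -/
def BD {ι : Type} [Fintype ι] (D Γ : Set (ι → ℝ)) (F : (ι → ℂ) → ℂ) (x : ι → ℝ) : Prop :=
  ∃ M : ℕ, ∀ y ∈ D, y ∈ Γ → ‖y‖ < 1 / ((M : ℝ) + 1) → ‖F (pt x y)‖ ≤ M

theorem unb_of_not_BD {ι : Type} [Fintype ι] {D Γ : Set (ι → ℝ)} {F : (ι → ℂ) → ℂ} {x : ι → ℝ}
    (h : ¬ BD D Γ F x) : UnboundedAt Γ F x := by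
  intro M δ hδ
  obtain ⟨N1, hN1⟩ := exists_nat_gt M
  obtain ⟨N2, hN2⟩ := exists_nat_gt (1 / δ)
  unfold BD at h
  push Not at h
  obtain ⟨y, hyD, hyΓ, hy, hF⟩ := h (max N1 N2)
  refine ⟨y, hyΓ, lt_of_lt_of_le hy ?_, lt_of_le_of_lt ?_ hF⟩
  · have h1 : (1 / δ) < ((max N1 N2 : ℕ) : ℝ) + 1 := by
      have : (N2 : ℝ) ≤ ((max N1 N2 : ℕ) : ℝ) := by exact_mod_cast le_max_right _ _
      linarith
    have h2 : 0 < 1 / δ := by positivity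
    rw [div_le_iff₀ (by positivity)]
    rw [div_lt_iff₀ hδ] at h1
    linarith
  · have : (N1 : ℝ) ≤ ((max N1 N2 : ℕ) : ℝ) := by exact_mod_cast le_max_left _ _
    linarith

theorem not_BD_of_unb {ι : Type} [Fintype ι] {D Γ : Set (ι → ℝ)} (hD : Dense D) (hΓ : IsOpen Γ)
    {F : (ι → ℂ) → ℂ} (hF : ContinuousOn F {z | (fun k => (z k).im) ∈ Γ}) {x : ι → ℝ}
    (h : UnboundedAt Γ F x) : ¬ BD D Γ F x := by
  rintro ⟨M, hM⟩
  have hcont : ContinuousOn (fun y : ι → ℝ => ‖F (pt x y)‖) Γ := by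
    refine ContinuousOn.norm ?_
    refine hF.comp ?_ ?_
    · exact (pt_cont.comp (Continuous.prodMk_right x)).continuousOn
    · intro y hy
      change (fun k => (pt x y k).im) ∈ Γ
      rw [pt_im]
      exact hy
  have hO : IsOpen (Γ ∩ (fun y : ι → ℝ => ‖F (pt x y)‖) ⁻¹' Set.Ioi (M : ℝ)) :=
    hcont.isOpen_inter_preimage hΓ isOpen_Ioi
  have hO2 : IsOpen ((Γ ∩ (fun y : ι → ℝ => ‖F (pt x y)‖) ⁻¹' Set.Ioi (M : ℝ)) ∩
      Metric.ball 0 (1 / ((M : ℝ) + 1))) := hO.inter Metric.isOpen_ball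
  obtain ⟨y, hyΓ, hy, hMy⟩ := h M (1 / ((M : ℝ) + 1)) (by positivity)
  obtain ⟨w, hw, hwD⟩ := hD.inter_open_nonempty _ hO2 ⟨y, ⟨hyΓ, hMy⟩, by simpa using hy⟩
  have := hM w hwD hw.1.1 (by simpa using hw.2)
  have h2 : (M : ℝ) < ‖F (pt x w)‖ := hw.1.2
  linarith

theorem BD_meas {ι Ω : Type} [Fintype ι] [MeasurableSpace Ω] {D Γ : Set (ι → ℝ)}
    (hD : D.Countable) {F : Ω → (ι → ℂ) → ℂ}
    (hF : ∀ y ∈ Γ, Measurable fun q : Ω × (ι → ℝ) => F q.1 (pt q.2 y)) :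
    MeasurableSet {q : Ω × (ι → ℝ) | BD D Γ (F q.1) q.2} := by
  have : {q : Ω × (ι → ℝ) | BD D Γ (F q.1) q.2} = ⋃ M : ℕ, ⋂ y ∈ D,
      {q : Ω × (ι → ℝ) | y ∈ Γ → ‖y‖ < 1 / ((M : ℝ) + 1) → ‖F q.1 (pt q.2 y)‖ ≤ M} := by
    ext q
    simp [BD]
  rw [this]
  refine MeasurableSet.iUnion fun M => MeasurableSet.biInter hD fun y _ => ?_
  by_cases hy : y ∈ Γ
  · by_cases hn : ‖y‖ < 1 / ((M : ℝ) + 1)
    · have : {q : Ω × (ι → ℝ) | y ∈ Γ → ‖y‖ < 1 / ((M : ℝ) + 1) → ‖F q.1 (pt q.2 y)‖ ≤ M} =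
          {q : Ω × (ι → ℝ) | ‖F q.1 (pt q.2 y)‖ ≤ M} := by
        ext q; simp only [Set.mem_setOf_eq]; exact ⟨fun h => h hy hn, fun h _ _ => h⟩
      rw [this]
      exact measurableSet_le (hF y hy).norm measurable_const
    · have : {q : Ω × (ι → ℝ) | y ∈ Γ → ‖y‖ < 1 / ((M : ℝ) + 1) → ‖F q.1 (pt q.2 y)‖ ≤ M} =
          Set.univ := by
        ext q; simp only [Set.mem_setOf_eq, Set.mem_univ, iff_true]; exact fun _ h => absurd h hn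
      rw [this]; exact MeasurableSet.univ
  · have : {q : Ω × (ι → ℝ) | y ∈ Γ → ‖y‖ < 1 / ((M : ℝ) + 1) → ‖F q.1 (pt q.2 y)‖ ≤ M} =
        Set.univ := by
      ext q; simp only [Set.mem_setOf_eq, Set.mem_univ, iff_true]; exact fun h => absurd h hy
    rw [this]; exact MeasurableSet.univ

end Pool.Agent.Y263.HT
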