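import Pool.Agent.Y263.HT.Cor

set_option autoImplicit false

/-! Core of project HT: random translates, conclusion. -/

namespace Pool.Agent.Y263.HT

open MeasureTheory Filter Topology

/-- The random coefficient. -/
noncomputable def cf (ε : ℕ → ℝ) (ω : ℕ → ℝ) (k : ℕ) : ℂ := ((Real.arctan (ω k) / 2 * ε k : ℝ) : ℂ)

theorem arctan_half (s : ℝ) : |Real.arctan s / 2| ≤ 1 := by
  have h1 := Real.arctan_lt_pi_div_two s
  have h2 := Real.neg_pi_div_two_lt_arctan s
  have h3 := Real.pi_lt_four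
  rw [abs_le]
  constructor <;> linarith

theorem norm_cf {ε : ℕ → ℝ} (hε : ∀ k, 0 < ε k) (ω : ℕ → ℝ) (k : ℕ) : ‖cf ε ω k‖ ≤ ε k := by
  unfold cf
  rw [Complex.norm_real, Real.norm_eq_abs, abs_mul, abs_of_pos (hε k)]
  have := arctan_half (ω k)
  nlinarith [hε k]

theorem cf_meas (ε : ℕ → ℝ) (k : ℕ) : Measurable fun ω : ℕ → ℝ => cf ε ω k := by
  unfold cf
  refine Complex.measurable_ofReal.comp ?_
  exact ((Real.measurable_arctan.comp (measurable_pi_apply k)).div_const 2).mul_const _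

theorem core (hSTE : STE) (hPIN : PIN) (hDIF : DIF) (hEPS : EPS) (hLP : LP)
    {ι : Type} [Fintype ι] (Γ : Set (ι → ℝ)) (hΓ : IsOpen Γ) (p : ℝ) (hp : 0 < p)
    (F : (ι → ℂ) → ℂ) (hF : InHardy Γ p F) (hne : ¬ ∀ᵐ x : ι → ℝ, ¬ UnboundedAt Γ F x) :
    ∃ G : (ι → ℂ) → ℂ, InHardy Γ p G ∧ ∀ᵐ x : ι → ℝ, UnboundedAt Γ G x := by
  classical
  obtain ⟨D, hDc, hDd⟩ := TopologicalSpace.exists_countable_dense (ι → ℝ)
  obtain ⟨hFd, A, hA⟩ := hF
  have hU := tube_open hΓ
  have hFc := hFd.continuousOn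
  have mem_tube : ∀ (x y : ι → ℝ), y ∈ Γ → pt x y ∈ {z : ι → ℂ | (fun k => (z k).im) ∈ Γ} := by
    intro x y hy
    change (fun k => (pt x y k).im) ∈ Γ
    rw [pt_im]; exact hy
  -- continuity in x of functions continuous on the tube
  have cont_x : ∀ f : (ι → ℂ) → ℂ, ContinuousOn f {z : ι → ℂ | (fun k => (z k).im) ∈ Γ} →
      ∀ y ∈ Γ, Continuous fun x : ι → ℝ => f (pt x y) := by
    intro f hf y hy
    rw [← continuousOn_univ]
    refine hf.comp ?_ fun x _ => mem_tube x y hy
    exact (pt_cont.comp (Continuous.prodMk_left y)).continuousOn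
  -- the set of unboundedness
  set E : Set (ι → ℝ) := {x | ¬ BD D Γ F x} with hE
  have hEm : MeasurableSet E := by
    have h1 : MeasurableSet {q : Unit × (ι → ℝ) | BD D Γ F q.2} :=
      BD_meas hDc (F := fun _ : Unit => F) fun y hy =>
        ((cont_x F hFc y hy).measurable).comp measurable_snd
    have h2 : Measurable fun x : ι → ℝ => (((), x) : Unit × (ι → ℝ)) := by fun_prop
    have h3 : E = ((fun x : ι → ℝ => (((), x) : Unit × (ι → ℝ))) ⁻¹'
        {q : Unit × (ι → ℝ) | BD D Γ F q.2})ᶜ := by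
      ext x; simp [hE]
    rw [h3]
    exact (h2 h1).compl
  have hE0 : volume E ≠ 0 := by
    intro h0
    apply hne
    have : ∀ᵐ x : ι → ℝ, x ∉ E := by
      rw [ae_iff]; simpa using h0
    filter_upwards [this] with x hx hunb
    exact hx (not_BD_of_unb hDd hΓ hFc hunb)
  obtain ⟨q, hq⟩ := hSTE ι E hEm hE0
  -- the translates
  set f : ℕ → (ι → ℂ) → ℂ := fun k z => F (fun j => z j - (q k j : ℂ)) with hf
  have f_pt : ∀ k (x y : ι → ℝ), f k (pt x y) = F (pt (x - q k) y) := by
    intro k x y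
    simp only [hf]
    congr 1
    funext j
    simp only [pt, Pi.sub_apply]
    push_cast
    ring
  have fd : ∀ k, DifferentiableOn ℂ (f k) {z : ι → ℂ | (fun k => (z k).im) ∈ Γ} := by
    intro k
    refine hFd.comp ?_ ?_
    · have : Differentiable ℂ fun z : ι → ℂ => fun j => z j - (q k j : ℂ) := by fun_prop
      exact this.differentiableOn
    · intro z hz
      change (fun j => (z j - (q k j : ℂ)).im) ∈ Γ
      simpa using hz
  have fc : ∀ k, ContinuousOn (f k) {z : ι → ℂ | (fun k => (z k).im) ∈ Γ} :=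
    fun k => (fd k).continuousOn
  have fA : ∀ k, ∀ y ∈ Γ, ∫⁻ x : ι → ℝ, ‖f k (pt x y)‖ₑ ^ p ≤ ENNReal.ofReal A := by
    intro k y hy
    have h1 : ∫⁻ x : ι → ℝ, ‖f k (pt x y)‖ₑ ^ p = ∫⁻ x : ι → ℝ, ‖F (pt x y)‖ₑ ^ p := by
      simp_rw [f_pt]
      exact lintegral_sub_right_eq_self (fun x => ‖F (pt x y)‖ₑ ^ p) (q k)
    rw [h1]
    exact hA y hy
  obtain ⟨ε, hε, hεloc⟩ := hEPS ι _ hU f fc
  have hε0 : ∀ k, 0 < ε k := fun k => (hε k).1
  -- the random series
  set G : (ℕ → ℝ) → (ι → ℂ) → ℂ := fun ω z => ∑' k, cf ε ω k * f k z with hG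
  have hsum : ∀ ω, ∀ z ∈ {z : ι → ℂ | (fun k => (z k).im) ∈ Γ},
      Summable fun k => cf ε ω k * f k z := by
    intro ω z hz
    obtain ⟨r, hr, _, u, hu, hub⟩ := hεloc z hz
    refine Summable.of_norm_bounded hu fun k => ?_
    rw [norm_mul]
    refine le_trans ?_ (hub k z (Metric.mem_ball_self hr))
    exact mul_le_mul_of_nonneg_right (norm_cf hε0 ω k) (norm_nonneg _)
  have hGH : ∀ ω, InHardy Γ p (G ω) := by
    intro ω
    constructor
    · refine hDIF ι _ hU (fun k z => cf ε ω k * f k z) (fun k => (fd k).const_mul _) ?_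
      intro z hz
      obtain ⟨r, hr, hrU, u, hu, hub⟩ := hεloc z hz
      refine ⟨r, hr, hrU, u, hu, fun k w hw => ?_⟩
      rw [norm_mul]
      refine le_trans ?_ (hub k w hw)
      exact mul_le_mul_of_nonneg_right (norm_cf hε0 ω k) (norm_nonneg _)
    · refine ⟨A * ∑' k : ℕ, ((1 / 2 : ℝ) ^ p) ^ (k + 1), fun y hy => ?_⟩
      exact hLP ι p A hp (fun k x => f k (pt x y)) (fun k => (cont_x _ (fc k) y hy).measurable)
        (fun k => fA k y hy) (cf ε ω) fun k => (norm_cf hε0 ω k).trans (hε k).2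
  -- joint measurability
  have hGm : ∀ y ∈ Γ, Measurable fun r : (ℕ → ℝ) × (ι → ℝ) => G r.1 (pt r.2 y) := by
    intro y hy
    refine measurable_of_tendsto_metrizable
      (f := fun (n : ℕ) (r : (ℕ → ℝ) × (ι → ℝ)) => ∑ k ∈ Finset.range n,
        cf ε r.1 k * f k (pt r.2 y)) ?_ ?_
    · intro n
      refine Finset.measurable_sum _ fun k _ => ?_
      exact ((cf_meas ε k).comp measurable_fst).mul
        ((cont_x _ (fc k) y hy).measurable.comp measurable_snd)
    · rw [tendsto_pi_nhds]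
      intro r
      exact (hsum r.1 (pt r.2 y) (mem_tube _ _ hy)).hasSum.tendsto_sum_nat
  have hBm := BD_meas (D := D) (Γ := Γ) hDc (F := G) hGm
  -- one coordinate
  set μ : Measure ℝ := volume.restrict (Set.Icc (0 : ℝ) 1) with hμ
  haveI : IsProbabilityMeasure μ := ⟨by simp [hμ]⟩
  have key : ∀ x : ι → ℝ, (∃ k, x - q k ∈ E) →
      Measure.infinitePi (fun _ : ℕ => μ) {ω | BD D Γ (G ω) x} = 0 := by
    rintro x ⟨k, hk⟩
    refine hPIN μ _ ?_ k fun ω => ?_
    · have h2 : Measurable fun ω : ℕ → ℝ => ((ω, x) : (ℕ → ℝ) × (ι → ℝ)) := by fun_prop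
      exact h2 hBm
    · have hss : {s | Function.update ω k s ∈ {ω | BD D Γ (G ω) x}}.Subsingleton := by
        intro s hs s' hs'
        by_contra hne'
        obtain ⟨M, hM⟩ := hs
        obtain ⟨M', hM'⟩ := hs'
        set a : ℝ := |Real.arctan s / 2 - Real.arctan s' / 2| * ε k with ha
        have hapos : 0 < a := by
          have : Real.arctan s ≠ Real.arctan s' := fun h => hne' (Real.arctan_injective h)
          have h1 : Real.arctan s / 2 - Real.arctan s' / 2 ≠ 0 := by
            intro h; apply this; linarith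
          exact mul_pos (abs_pos.2 h1) (hε0 k)
        obtain ⟨N, hN⟩ := exists_nat_gt (((M : ℝ) + M') / a)
        apply hk
        refine ⟨max N (max M M'), fun y hyD hyΓ hy => ?_⟩
        have hle : ∀ m : ℕ, m ≤ max N (max M M') → ‖y‖ < 1 / ((m : ℝ) + 1) := by
          intro m hm
          refine lt_of_lt_of_le hy ?_
          have : (m : ℝ) ≤ ((max N (max M M') : ℕ) : ℝ) := by exact_mod_cast hm
          exact one_div_le_one_div_of_le (by positivity) (by linarith)
        have e1 := hM y hyD hyΓ (hle M (by omega))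
        have e2 := hM' y hyD hyΓ (hle M' (by omega))
        have hz := mem_tube x y hyΓ
        have s1 := hsum (Function.update ω k s) _ hz
        have s2 := hsum (Function.update ω k s') _ hz
        have hdiff : G (Function.update ω k s) (pt x y) - G (Function.update ω k s') (pt x y) =
            (((Real.arctan s / 2 - Real.arctan s' / 2) * ε k : ℝ) : ℂ) * f k (pt x y) := by
          simp only [hG]
          rw [← s1.tsum_sub s2, tsum_eq_single k]
          · simp only [cf, Function.update_self]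
            push_cast
            ring
          · intro j hj
            simp only [cf, Function.update_of_ne hj, sub_self]
        have hnorm : a * ‖f k (pt x y)‖ ≤ M + M' := by
          have h3 : ‖G (Function.update ω k s) (pt x y) - G (Function.update ω k s') (pt x y)‖ ≤
              M + M' := (norm_sub_le _ _).trans (add_le_add e1 e2)
          rw [hdiff, norm_mul, Complex.norm_real, Real.norm_eq_abs, abs_mul,
            abs_of_pos (hε0 k)] at h3
          exact h3
        have hfin : ‖f k (pt x y)‖ ≤ ((M : ℝ) + M') / a := by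
          rw [le_div_iff₀ hapos]; linarith
        have h4 : (N : ℝ) ≤ ((max N (max M M') : ℕ) : ℝ) := by exact_mod_cast le_max_left _ _
        rw [← f_pt]
        linarith
      exact hss.measure_zero μ
  have hae : ∀ᵐ x : ι → ℝ, ∀ᵐ ω ∂(Measure.infinitePi (fun _ : ℕ => μ)), ¬ BD D Γ (G ω) x := by
    filter_upwards [hq] with x hx
    rw [ae_iff]
    simpa using key x hx
  have hae2 : ∀ᵐ ω ∂(Measure.infinitePi (fun _ : ℕ => μ)), ∀ᵐ x : ι → ℝ, ¬ BD D Γ (G ω) x := by
    rw [Measure.ae_ae_comm] at hae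
    · exact hae
    · have h5 : {r : (ι → ℝ) × (ℕ → ℝ) | ¬ BD D Γ (G r.2) r.1} =
          (Prod.swap ⁻¹' {r : (ℕ → ℝ) × (ι → ℝ) | BD D Γ (G r.1) r.2})ᶜ := by
        ext r; simp
      rw [h5]
      exact (measurable_swap hBm).compl
  obtain ⟨ω, hω⟩ := hae2.exists
  refine ⟨G ω, hGH ω, ?_⟩
  filter_upwards [hω] with x hx
  exact unb_of_not_BD hx

end Pool.Agent.Y263.HT
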