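import Mathlib

set_option autoImplicit false

/-!
# Hardy spaces on tubes: definitions (MP_730078_an, project HT)
-/

namespace Pool.Agent.Y263.HT

open MeasureTheory Filter Topology

/-- The point `x + i y`. -/
def pt {ι : Type} (x y : ι → ℝ) : ι → ℂ := fun k => (x k : ℂ) + (y k : ℂ) * Complex.I

/-- The tube over `Γ`. -/
def tube {ι : Type} (Γ : Set (ι → ℝ)) : Set (ι → ℂ) := {z | (fun k => (z k).im) ∈ Γ}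

/-- `F ∈ H^p(T_Γ)`. -/
def InHardy {ι : Type} [Fintype ι] (Γ : Set (ι → ℝ)) (p : ℝ) (F : (ι → ℂ) → ℂ) : Prop :=
  DifferentiableOn ℂ F {z | (fun k => (z k).im) ∈ Γ} ∧
    ∃ C : ℝ, ∀ y ∈ Γ, ∫⁻ x : ι → ℝ, ‖F (pt x y)‖ₑ ^ p ≤ ENNReal.ofReal C

/-- `F(x + i y)` is unbounded as `y → 0` in `Γ`. -/
def UnboundedAt {ι : Type} [Fintype ι] (Γ : Set (ι → ℝ)) (F : (ι → ℂ) → ℂ) (x : ι → ℝ) : Prop :=
  ∀ M δ : ℝ, 0 < δ → ∃ y ∈ Γ, ‖y‖ < δ ∧ M < ‖F (pt x y)‖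

/-- The light cone `C_n`, `n = m + 3`. -/
def lightCone (m : ℕ) : Set (Fin (m + 3) → ℝ) :=
  {y | 0 < y 0 ∧ 0 < y 0 ^ 2 - ∑ j : Fin (m + 2), y j.succ ^ 2}

/-- Open convex cones containing no entire straight line. -/
def IsRegularCone {ι : Type} [Fintype ι] (Γ : Set (ι → ℝ)) : Prop :=
  IsOpen Γ ∧ Convex ℝ Γ ∧ (∀ y ∈ Γ, ∀ t : ℝ, 0 < t → t • y ∈ Γ) ∧ Γ.Nonempty ∧
    ¬ ∃ a v : ι → ℝ, v ≠ 0 ∧ ∀ t : ℝ, a + t • v ∈ Γ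

end Pool.Agent.Y263.HT
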