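import Pool.Agent.Y263.HT.Stm

/-!
# Normally convergent series of holomorphic functions of several variables
-/

set_option autoImplicit false

namespace Pool.Agent.Y263.HT

open Metric

namespace DifAux

theorem fderiv_bound {ι : Type} [Fintype ι] (g : (ι → ℂ) → ℂ) (z w : ι → ℂ) (r C : ℝ) (hr : 0 < r)
    (hd : DifferentiableOn ℂ g (ball z r)) (hC : ∀ x ∈ ball z r, ‖g x‖ ≤ C)
    (hw : w ∈ ball z (r / 2)) : ‖fderiv ℂ g w‖ ≤ 4 / r * C := by
  have hwr : w ∈ ball z r := ball_subset_ball (by linarith) hw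
  have hC0 : 0 ≤ C := (norm_nonneg _).trans (hC w hwr)
  have hdw : DifferentiableAt ℂ g w := hd.differentiableAt (isOpen_ball.mem_nhds hwr)
  refine ContinuousLinearMap.opNorm_le_bound _ (by positivity) fun v => ?_
  rcases eq_or_ne v 0 with rfl | hv
  · simp
  have hv0 : 0 < ‖v‖ := norm_pos_iff.2 hv
  have hline : ∀ t : ℂ, ‖t‖ * ‖v‖ < r / 2 → w + t • v ∈ ball z r := by
    intro t ht
    rw [mem_ball, dist_eq_norm] at hw ⊢
    calc ‖w + t • v - z‖ = ‖(w - z) + t • v‖ := by congr 1; abel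
      _ ≤ ‖w - z‖ + ‖t • v‖ := norm_add_le _ _
      _ = ‖w - z‖ + ‖t‖ * ‖v‖ := by rw [norm_smul]
      _ < r := by linarith
  obtain ⟨R, hR⟩ : ∃ R : ℝ, R = r / 4 / ‖v‖ := ⟨_, rfl⟩
  have hR0 : 0 < R := by rw [hR]; positivity
  have hRv : R * ‖v‖ = r / 4 := by rw [hR]; field_simp
  have hin : ∀ t : ℂ, t ∈ closedBall (0 : ℂ) R → ‖t‖ * ‖v‖ < r / 2 := by
    intro t ht
    rw [mem_closedBall, dist_zero_right] at ht
    have : ‖t‖ * ‖v‖ ≤ R * ‖v‖ := mul_le_mul_of_nonneg_right ht hv0.le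
    linarith
  have hdiff : DifferentiableOn ℂ (fun t : ℂ => g (w + t • v)) {t : ℂ | ‖t‖ * ‖v‖ < r / 2} := by
    have h1 : Differentiable ℂ (fun t : ℂ => w + t • v) :=
      (differentiable_id.smul_const v).const_add w
    exact hd.comp h1.differentiableOn (fun t ht => hline t ht)
  have hdc : DiffContOnCl ℂ (fun t : ℂ => g (w + t • v)) (ball 0 R) :=
    hdiff.diffContOnCl_ball fun t ht => hin t ht
  have hb := Complex.norm_deriv_le_of_forall_mem_sphere_norm_le hR0 hdc
    (fun t ht => hC _ (hline t (hin t (sphere_subset_closedBall ht))))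
  have hline' : HasDerivAt (fun t : ℂ => w + t • v) v 0 := by
    have := ((hasDerivAt_id (0 : ℂ)).smul_const v).const_add w
    simpa using this
  have hF : HasFDerivAt g (fderiv ℂ g w) (w + (0 : ℂ) • v) := by
    rw [zero_smul, add_zero]
    exact hdw.hasFDerivAt
  have hder : deriv (fun t : ℂ => g (w + t • v)) 0 = fderiv ℂ g w v :=
    (hF.comp_hasDerivAt (0 : ℂ) hline').deriv
  rw [hder] at hb
  calc ‖fderiv ℂ g w v‖ ≤ C / R := hb
    _ = 4 / r * C * ‖v‖ := by rw [hR]; field_simp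

end DifAux

theorem t_DIF : DIF := by
  intro ι _ U hU g hg hloc z hz
  obtain ⟨r, hr, hrU, u, hu, hb⟩ := hloc z hz
  have hzb : z ∈ ball z (r / 2) := mem_ball_self (by positivity)
  have key : HasFDerivAt (fun y => ∑' k, g k y) (∑' k, fderiv ℂ (g k) z) z := by
    refine hasFDerivAt_tsum_of_isPreconnected (u := fun k => 4 / r * u k) (hu.mul_left _)
      isOpen_ball (convex_ball z (r / 2)).isPreconnected (f' := fun k x => fderiv ℂ (g k) x)
      ?_ ?_ hzb ?_ hzb
    · intro k x hx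
      have hxr : x ∈ ball z r := ball_subset_ball (by linarith) hx
      exact ((hg k).differentiableAt (hU.mem_nhds (hrU hxr))).hasFDerivAt
    · intro k x hx
      exact DifAux.fderiv_bound (g k) z x r (u k) hr ((hg k).mono hrU) (hb k) hx
    · exact Summable.of_norm_bounded hu (fun k => hb k z (mem_ball_self hr))
  exact key.differentiableAt.differentiableWithinAt

end Pool.Agent.Y263.HT
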