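import Pool.Agent.Y263.HT.Stm

/-! Project HT, job HT-DUA (helper564): a regular cone has `n` independent nonnegative
functionals. -/

set_option autoImplicit false

namespace Pool.Agent.Y263.HT

namespace H564

/-- a functional which is smaller on the cone than at some point is nonpositive on the cone -/
theorem nonpos {ι : Type} [Fintype ι] {Γ : Set (ι → ℝ)}
    (hc : ∀ y ∈ Γ, ∀ t : ℝ, 0 < t → t • y ∈ Γ) (f : (ι → ℝ) →L[ℝ] ℝ) (b : ι → ℝ)
    (hf : ∀ y ∈ Γ, f y < f b) : ∀ y ∈ Γ, f y ≤ 0 := by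
  intro y hy
  by_contra hcon
  rw [not_le] at hcon
  have h1 : 0 < (|f b| + 1) / f y := by positivity
  have h2 := hf _ (hc y hy _ h1)
  rw [map_smul, smul_eq_mul, div_mul_cancel₀ _ hcon.ne'] at h2
  have h3 := le_abs_self (f b)
  linarith

theorem span_top {ι : Type} [Fintype ι] {Γ : Set (ι → ℝ)} (hΓ : IsRegularCone Γ) :
    Submodule.span ℝ {f : Module.Dual ℝ (ι → ℝ) | ∀ y ∈ Γ, 0 ≤ f y} = ⊤ := by
  obtain ⟨hopen, hconv, hcone, ⟨a, ha⟩, hline⟩ := hΓ
  by_contra hne
  obtain ⟨F, hF0, hF⟩ := Submodule.exists_le_ker_of_lt_top _ (lt_top_iff_ne_top.2 hne)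
  obtain ⟨v, hv⟩ : ∃ v : ι → ℝ, ∀ f : Module.Dual ℝ (ι → ℝ), f v = F f :=
    ⟨(Module.evalEquiv ℝ (ι → ℝ)).symm F, fun f => Module.apply_evalEquiv_symm_apply ℝ _ f F⟩
  have hv0 : v ≠ 0 := by
    rintro rfl
    apply hF0
    ext f
    rw [← hv, map_zero]
    rfl
  have hfv : ∀ f : Module.Dual ℝ (ι → ℝ), (∀ y ∈ Γ, 0 ≤ f y) → f v = 0 := by
    intro f hf
    rw [hv]
    exact LinearMap.mem_ker.1 (hF (Submodule.subset_span hf))
  have ht : ∃ t : ℝ, a + t • v ∉ Γ := by
    by_contra hcon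
    push Not at hcon
    exact hline ⟨a, v, hv0, hcon⟩
  obtain ⟨t, ht⟩ := ht
  obtain ⟨f, hf⟩ := geometric_hahn_banach_open_point hconv hopen ht
  have h1 := nonpos hcone f _ hf
  have h2 := hfv (-(f : (ι → ℝ) →ₗ[ℝ] ℝ)) (fun y hy => by
    have := h1 y hy
    rw [LinearMap.neg_apply]
    exact neg_nonneg.2 this)
  have h3 : f v = 0 := by
    rw [LinearMap.neg_apply, neg_eq_zero] at h2
    exact h2
  have h4 := hf a ha
  rw [map_add, map_smul, h3, smul_zero, add_zero] at h4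
  exact lt_irrefl _ h4

end H564

theorem t_DUA : DUA := by
  intro ι _ Γ hΓ
  have hspan := H564.span_top hΓ
  obtain ⟨b, hb, hbs, hbi⟩ := exists_linearIndependent ℝ
    {f : Module.Dual ℝ (ι → ℝ) | ∀ y ∈ Γ, 0 ≤ f y}
  have hbt : Submodule.span ℝ b = ⊤ := hbs.trans hspan
  have hfin : Finite b := hbi.finite
  let _ := Fintype.ofFinite b
  let B : Module.Basis b ℝ (Module.Dual ℝ (ι → ℝ)) := Module.Basis.mk hbi (by
    rw [Subtype.range_coe, hbt])
  have hcard : Fintype.card ι = Fintype.card b := by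
    rw [← Module.finrank_eq_card_basis B, Subspace.dual_finrank_eq,
      Module.finrank_fintype_fun_eq_card]
  obtain ⟨e⟩ := Fintype.card_eq.1 hcard
  refine ⟨LinearMap.pi (fun j => (e j : Module.Dual ℝ (ι → ℝ))), ?_, ?_⟩
  · intro y hy j
    rw [LinearMap.pi_apply]
    exact hb (e j).2 y hy
  · intro v hv
    have h1 : ∀ f ∈ b, f v = 0 := by
      intro f hf
      have h2 := congrFun hv (e.symm ⟨f, hf⟩)
      rw [LinearMap.pi_apply, e.apply_symm_apply] at h2
      exact h2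
    rw [← Module.forall_dual_apply_eq_zero_iff ℝ v]
    intro f
    have h3 : f ∈ Submodule.span ℝ b := by rw [hbt]; trivial
    induction h3 using Submodule.span_induction with
    | mem x hx => exact h1 x hx
    | zero => rfl
    | add x y _ _ hx hy => rw [LinearMap.add_apply, hx, hy, add_zero]
    | smul c x _ hx => rw [LinearMap.smul_apply, hx, smul_zero]

end Pool.Agent.Y263.HT
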