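import Pool.Agent.Y263.HT.Stm

set_option autoImplicit false

/-!
# Small coefficients making a sequence of continuous functions locally summable
-/

namespace Pool.Agent.Y263.HT

open MeasureTheory Filter Topology

/-- Compact exhaustion of an open set. -/
private def KK {ι : Type} [Fintype ι] (U : Set (ι → ℂ)) (j : ℕ) : Set (ι → ℂ) :=
  Metric.closedBall 0 (j : ℝ) \ Metric.thickening (1 / ((j : ℝ) + 1)) Uᶜ

private theorem KK_compact {ι : Type} [Fintype ι] (U : Set (ι → ℂ)) (j : ℕ) :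
    IsCompact (KK U j) :=
  (isCompact_closedBall 0 (j : ℝ)).diff Metric.isOpen_thickening

private theorem KK_sub {ι : Type} [Fintype ι] (U : Set (ι → ℂ)) (j : ℕ) : KK U j ⊆ U := by
  intro w hw
  by_contra h
  exact hw.2 (Metric.self_subset_thickening (by positivity) _ h)

private theorem KK_mono {ι : Type} [Fintype ι] (U : Set (ι → ℂ)) {j k : ℕ} (h : j ≤ k) :
    KK U j ⊆ KK U k := by
  have hjk : (j : ℝ) ≤ k := by exact_mod_cast h
  intro w hw
  refine ⟨Metric.closedBall_subset_closedBall hjk hw.1, fun h' => hw.2 ?_⟩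
  exact Metric.thickening_mono (one_div_le_one_div_of_le (by positivity) (by linarith)) _ h'

private theorem KK_ball {ι : Type} [Fintype ι] (U : Set (ι → ℂ)) (hU : IsOpen U) (z : ι → ℂ)
    (hz : z ∈ U) : ∃ r > 0, ∃ J : ℕ, Metric.ball z r ⊆ KK U J := by
  obtain ⟨R, hR, hRU⟩ := Metric.isOpen_iff.1 hU z hz
  obtain ⟨J₁, hJ₁⟩ := exists_nat_one_div_lt (half_pos hR)
  obtain ⟨J₂, hJ₂⟩ := exists_nat_ge (‖z‖ + R / 2)
  refine ⟨R / 2, half_pos hR, max J₁ J₂, fun w hw => ⟨?_, fun h => ?_⟩⟩
  · rw [mem_closedBall_zero_iff]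
    have h1 : ‖w‖ ≤ ‖z‖ + ‖w - z‖ := by
      have := norm_add_le z (w - z)
      rwa [add_sub_cancel] at this
    have h2 : ‖w - z‖ < R / 2 := by
      rw [← dist_eq_norm]
      exact hw
    have h3 : ((J₂ : ℕ) : ℝ) ≤ ((max J₁ J₂ : ℕ) : ℝ) := by exact_mod_cast le_max_right _ _
    linarith
  · rw [Metric.mem_thickening_iff] at h
    obtain ⟨v, hv, hvw⟩ := h
    apply hv
    apply hRU
    have h3 : ((J₁ : ℕ) : ℝ) ≤ ((max J₁ J₂ : ℕ) : ℝ) := by exact_mod_cast le_max_left _ _
    have h4 : 1 / (((max J₁ J₂ : ℕ) : ℝ) + 1) ≤ 1 / ((J₁ : ℝ) + 1) :=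
      one_div_le_one_div_of_le (by positivity) (by linarith)
    have h5 : dist w z < R / 2 := hw
    have h6 : dist v z ≤ dist v w + dist w z := dist_triangle _ _ _
    rw [dist_comm v w] at h6
    rw [Metric.mem_ball]
    linarith

theorem t_EPS : EPS := by
  intro ι _ U hU f hf
  have hM : ∀ k j : ℕ, ∃ C : ℝ, ∀ w ∈ KK U j, ‖f k w‖ ≤ C := fun k j =>
    (KK_compact U j).exists_bound_of_continuousOn ((hf k).mono (KK_sub U j))
  choose C hC using hM
  have hpos : ∀ k, 0 < 1 + |C k k| := fun k => by positivity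
  refine ⟨fun k => (1 / 4) ^ (k + 1) / (1 + |C k k|), fun k => ⟨?_, ?_⟩, fun z hz => ?_⟩
  · exact div_pos (by positivity) (hpos k)
  · exact div_le_self (by positivity) (by linarith [abs_nonneg (C k k)])
  · obtain ⟨r, hr, J, hJ⟩ := KK_ball U hU z hz
    refine ⟨r, hr, hJ.trans (KK_sub U J),
      fun k => (1 / 4 : ℝ) ^ (k + 1) +
        (if k < J then (1 / 4 : ℝ) ^ (k + 1) / (1 + |C k k|) * |C k J| else 0), ?_, ?_⟩
    · refine Summable.add ?_ ?_
      · exact (summable_nat_add_iff 1).2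
          (summable_geometric_of_lt_one (by norm_num) (by norm_num))
      · refine summable_of_ne_finset_zero (s := Finset.range J) fun k hk => ?_
        rw [if_neg]
        simpa using hk
    · intro k w hw
      have hwJ := hJ hw
      have he : 0 < (1 / 4 : ℝ) ^ (k + 1) / (1 + |C k k|) := div_pos (by positivity) (hpos k)
      by_cases hk : k < J
      · simp only [if_pos hk]
        have h1 : ‖f k w‖ ≤ |C k J| := (hC k J w hwJ).trans (le_abs_self _)
        have h2 := mul_le_mul_of_nonneg_left h1 he.le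
        have h3 : (0 : ℝ) ≤ (1 / 4 : ℝ) ^ (k + 1) := by positivity
        linarith
      · simp only [if_neg hk, add_zero]
        have h1 : ‖f k w‖ ≤ |C k k| :=
          (hC k k w (KK_mono U (not_lt.1 hk) hwJ)).trans (le_abs_self _)
        rw [div_mul_eq_mul_div, div_le_iff₀ (hpos k)]
        refine mul_le_mul_of_nonneg_left (by linarith) (by positivity)

end Pool.Agent.Y263.HT
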