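import Pool.Agent.Y263.HT.Stm2

set_option autoImplicit false

/-! FIB: nonnegative functionals that are independent on the fibres (project HT, MP_730078_an). -/

namespace Pool.Agent.Y263.HT

theorem t_FIB : FIB := by
  classical
  intro hD κ lam _ _ Γ hΓ
  obtain ⟨l', h1, h2⟩ := hD (κ ⊕ lam) Γ hΓ
  -- the restriction of the rows to the fibre
  obtain ⟨inc, hinc⟩ : ∃ inc : (lam → ℝ) →ₗ[ℝ] (κ ⊕ lam → ℝ),
      ∀ v, inc v = Sum.elim (0 : κ → ℝ) v := by
    refine ⟨{ toFun := fun v => Sum.elim (0 : κ → ℝ) v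
              map_add' := ?_
              map_smul' := ?_ }, fun v => rfl⟩
    · intro v w
      funext i
      rcases i with i | i
      · simp
      · rfl
    · intro c v
      funext i
      rcases i with i | i
      · simp
      · rfl
  obtain ⟨c, hc⟩ : ∃ c : κ ⊕ lam → Module.Dual ℝ (lam → ℝ), ∀ i v, c i v = l' (inc v) i :=
    ⟨fun i => LinearMap.proj i ∘ₗ l' ∘ₗ inc, fun i v => rfl⟩
  obtain ⟨ι', a, ha, hspan, hli⟩ := exists_linearIndependent' ℝ c
  have : Finite ι' := Finite.of_injective a ha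
  have : Fintype ι' := Fintype.ofFinite ι'
  have hcard : Fintype.card ι' ≤ Fintype.card lam := by
    have h3 := hli.fintype_card_le_finrank
    rwa [Subspace.dual_finrank_eq, Module.finrank_fintype_fun_eq_card] at h3
  obtain ⟨g⟩ := Function.Embedding.nonempty_of_card_le hcard
  obtain ⟨f, hf⟩ : ∃ f : lam → κ ⊕ lam, ∀ k, f (g k) = a k :=
    ⟨Function.extend g a (fun j => Sum.inr j), fun k => g.injective.extend_apply _ _ _⟩
  refine ⟨(LinearMap.funLeft ℝ ℝ f) ∘ₗ l', fun y hy j => ?_, fun v hv => ?_⟩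
  · change 0 ≤ l' y (f j)
    exact h1 y hy _
  · have h3 : ∀ k, c (a k) v = 0 := by
      intro k
      rw [hc, hinc, ← hf k]
      exact congrFun hv (g k)
    have h4 : Submodule.span ℝ (Set.range (c ∘ a)) ≤
        LinearMap.ker (LinearMap.applyₗ v : Module.Dual ℝ (lam → ℝ) →ₗ[ℝ] ℝ) := by
      rw [Submodule.span_le]
      rintro _ ⟨k, rfl⟩
      exact h3 k
    have h5 : ∀ i, c i v = 0 := by
      intro i
      have h6 : c i ∈ Submodule.span ℝ (Set.range (c ∘ a)) := by
        rw [hspan]
        exact Submodule.subset_span ⟨i, rfl⟩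
      exact h4 h6
    have h7 : l' (Sum.elim (0 : κ → ℝ) v) = 0 := by
      funext i
      have := h5 i
      rw [hc, hinc] at this
      exact this
    have h8 := h2 _ h7
    funext j
    exact congrFun h8 (Sum.inr j)

end Pool.Agent.Y263.HT
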