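import Pool.Agent.Y263.HT.Stm2

set_option autoImplicit false

/-! Project HT: transference between regular cones; unboundedness and limits. -/

namespace Pool.Agent.Y263.HT

open MeasureTheory Filter Topology

theorem gen (hDUA : DUA) (hFIB : FIB) (hTRB : TRB) (hTRA : TRA) (hLIN : LIN) (hSPL : SPL)
    (hIMG : IMG) {ι κ : Type} [Fintype ι] [Fintype κ] (Γ : Set (ι → ℝ)) (hΓ : IsRegularCone Γ)
    (Γ₁ : Set (κ → ℝ)) (hΓ₁ : IsOpen Γ₁) (hne : Γ₁.Nonempty) (π : (ι → ℝ) →ₗ[ℝ] (κ → ℝ))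
    (hπ : MapsOnto Γ Γ₁ π) (p : ℝ) (hp : 0 < p) (G : (κ → ℂ) → ℂ) (hG : InHardy Γ₁ p G)
    (hu : ∀ᵐ x : κ → ℝ, UnboundedAt Γ₁ G x) :
    ∃ H : (ι → ℂ) → ℂ, InHardy Γ p H ∧ ∀ᵐ x : ι → ℝ, UnboundedAt Γ H x := by
  obtain ⟨hmap, K, hK⟩ := hπ
  have hsub : Γ₁ ⊆ (LinearMap.range π : Set (κ → ℝ)) := by
    intro y hy
    obtain ⟨w, _, hw, _⟩ := hK y hy
    exact ⟨w, hw⟩
  have hsurj : Function.Surjective π := by
    rw [← LinearMap.range_eq_top]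
    refine Submodule.eq_top_of_nonempty_interior' _ ?_
    obtain ⟨y, hy⟩ := hne
    exact ⟨y, interior_maximal hsub hΓ₁ hy⟩
  obtain ⟨k, e, he⟩ := hSPL ι κ π hsurj
  have hΓ' := hIMG ι (κ ⊕ Fin k) e Γ hΓ
  obtain ⟨l, hl, hinj⟩ := hFIB hDUA κ (Fin k) (e '' Γ) hΓ'
  have hproj : ∀ y ∈ e '' Γ, (fun j => y (Sum.inl j)) ∈ Γ₁ := by
    rintro _ ⟨w, hw, rfl⟩
    have : (fun j => e w (Sum.inl j)) = π w := funext fun j => he w j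
    rw [this]
    exact hmap w hw
  have hlift : ∀ δ > 0, ∃ η > 0, ∀ y₁ ∈ Γ₁, ‖y₁‖ < η →
      ∃ y ∈ e '' Γ, ‖y‖ < δ ∧ (fun j => y (Sum.inl j)) = y₁ := by
    intro δ hδ
    set C : ℝ := ‖(LinearMap.toContinuousLinearMap (e : (ι → ℝ) →ₗ[ℝ] (κ ⊕ Fin k → ℝ)))‖ with hC
    have hC0 : 0 ≤ C := norm_nonneg _
    refine ⟨δ / ((C + 1) * (|K| + 1)), by positivity, fun y₁ hy₁ hy => ?_⟩
    obtain ⟨w, hwΓ, hw, hwn⟩ := hK y₁ hy₁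
    refine ⟨e w, ⟨w, hwΓ, rfl⟩, ?_, ?_⟩
    · have h1 : ‖e w‖ ≤ C * ‖w‖ :=
        (LinearMap.toContinuousLinearMap (e : (ι → ℝ) →ₗ[ℝ] (κ ⊕ Fin k → ℝ))).le_opNorm w
      have h2 : ‖w‖ ≤ |K| * ‖y₁‖ :=
        hwn.trans (mul_le_mul_of_nonneg_right (le_abs_self K) (norm_nonneg _))
      rw [lt_div_iff₀ (by positivity)] at hy
      have h3 : ‖e w‖ ≤ C * (|K| * ‖y₁‖) := h1.trans (mul_le_mul_of_nonneg_left h2 hC0)
      have h4 : C * (|K| * ‖y₁‖) ≤ ‖y₁‖ * ((C + 1) * (|K| + 1)) := by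
        have := abs_nonneg K
        have := norm_nonneg y₁
        nlinarith [mul_nonneg hC0 (norm_nonneg y₁), mul_nonneg (abs_nonneg K) (norm_nonneg y₁)]
      linarith
    · rw [← hw]
      exact funext fun j => he w j
  obtain ⟨H', hH', hu'⟩ := hTRA hTRB κ (Fin k) Γ₁ (e '' Γ) hproj hlift l hl hinj p hp G hG hu
  exact hLIN ι (κ ⊕ Fin k) e Γ p hp H' hH' hu'

theorem no_limit {ι : Type} [Fintype ι] {Γ : Set (ι → ℝ)} {F : (ι → ℂ) → ℂ} {x : ι → ℝ}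
    (h : UnboundedAt Γ F x) (l : ℂ) :
    ¬ Tendsto (fun y : ι → ℝ => F (pt x y)) (𝓝[Γ] 0) (𝓝 l) := by
  intro ht
  have h1 : ∀ᶠ y in 𝓝[Γ] (0 : ι → ℝ), ‖F (pt x y)‖ < ‖l‖ + 1 :=
    ht.norm.eventually (gt_mem_nhds (by linarith))
  rw [eventually_nhdsWithin_iff, Metric.eventually_nhds_iff] at h1
  obtain ⟨δ, hδ, hd⟩ := h1
  obtain ⟨y, hy, hyn, hF⟩ := h (‖l‖ + 1) δ hδ
  have := hd (by simpa using hyn) hy
  linarith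

end Pool.Agent.Y263.HT
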