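import Pool.Agent.Y263.HT.Stm2

set_option autoImplicit false

/-! Positive definite Hermitian matrices: projection to the light cone and lifting -/

namespace Pool.Agent.Y263.HT

open MeasureTheory Filter Topology
open scoped ComplexOrder

namespace Y765

/-- the lifting of a point of the light cone -/
noncomputable def yl (r : ℕ) (w : Fin 4 → ℝ) (p : Fin (r + 2) × Fin (r + 2)) : ℝ :=
  if p = (0, 0) then w 0 + w 1 else if p = (1, 1) then w 0 - w 1
  else if p = (0, 1) then w 2 else if p = (1, 0) then w 3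
  else if p.1 = p.2 then ‖w‖ else 0

lemma yl00 (r : ℕ) (w : Fin 4 → ℝ) : yl r w (0, 0) = w 0 + w 1 := by simp [yl]
lemma yl11 (r : ℕ) (w : Fin 4 → ℝ) : yl r w (1, 1) = w 0 - w 1 := by simp [yl]
lemma yl01 (r : ℕ) (w : Fin 4 → ℝ) : yl r w (0, 1) = w 2 := by simp [yl]
lemma yl10 (r : ℕ) (w : Fin 4 → ℝ) : yl r w (1, 0) = w 3 := by simp [yl]

lemma yl0s (r : ℕ) (w : Fin 4 → ℝ) (i : Fin r) : yl r w (0, i.succ.succ) = 0 := by
  simp [yl, Fin.ext_iff]
lemma yls0 (r : ℕ) (w : Fin 4 → ℝ) (i : Fin r) : yl r w (i.succ.succ, 0) = 0 := by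
  simp [yl, Fin.ext_iff]
lemma yl1s (r : ℕ) (w : Fin 4 → ℝ) (i : Fin r) : yl r w (1, i.succ.succ) = 0 := by
  simp [yl, Fin.ext_iff]
lemma yls1 (r : ℕ) (w : Fin 4 → ℝ) (i : Fin r) : yl r w (i.succ.succ, 1) = 0 := by
  simp [yl, Fin.ext_iff]
lemma ylss (r : ℕ) (w : Fin 4 → ℝ) (i j : Fin r) :
    yl r w (i.succ.succ, j.succ.succ) = if i = j then ‖w‖ else 0 := by
  simp [yl, Fin.ext_iff]

lemma hm_diag {n : ℕ} (y : Fin n × Fin n → ℝ) (j : Fin n) : hermMat y j j = (y (j, j) : ℂ) := by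
  simp [hermMat]

lemma hm_lt {n : ℕ} (y : Fin n × Fin n → ℝ) {j k : Fin n} (h : j < k) :
    hermMat y j k = (y (j, k) : ℂ) + (y (k, j) : ℂ) * Complex.I := by
  simp [hermMat, h]

lemma hm_gt {n : ℕ} (y : Fin n × Fin n → ℝ) {j k : Fin n} (h : k < j) :
    hermMat y j k = (y (k, j) : ℂ) - (y (j, k) : ℂ) * Complex.I := by
  simp [hermMat, h, not_lt.mpr h.le]

lemma hm_herm {n : ℕ} (y : Fin n × Fin n → ℝ) : (hermMat y).IsHermitian := by
  refine Matrix.IsHermitian.ext fun i j => ?_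
  rcases lt_trichotomy i j with h | h | h
  · rw [hm_lt y h, hm_gt y h]
    simp [sub_eq_add_neg]
  · rw [h, hm_diag]
    simp
  · rw [hm_lt y h, hm_gt y h]
    simp [sub_eq_add_neg]

lemma zero_lt_one' (r : ℕ) : (0 : Fin (r + 2)) < 1 := by simp

lemma form (r : ℕ) (w : Fin 4 → ℝ) (x : Fin (r + 2) → ℂ) :
    star x ⬝ᵥ (Matrix.mulVec (hermMat (yl r w)) x) =
      star (x 0) * (((w 0 + w 1 : ℝ) : ℂ) * x 0 + ((w 2 : ℂ) + (w 3 : ℂ) * Complex.I) * x 1) +
      star (x 1) * (((w 2 : ℂ) - (w 3 : ℂ) * Complex.I) * x 0 + ((w 0 - w 1 : ℝ) : ℂ) * x 1) +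
      ∑ i : Fin r, star (x i.succ.succ) * ((‖w‖ : ℂ) * x i.succ.succ) := by
  have h01 := zero_lt_one' r
  have h0s : ∀ i : Fin r, (0 : Fin (r + 2)) < i.succ.succ := fun i => by simp [Fin.lt_def]
  have h1s : ∀ i : Fin r, (1 : Fin (r + 2)) < i.succ.succ := fun i => by simp [Fin.lt_def]
  have hss : ∀ i j : Fin r, hermMat (yl r w) i.succ.succ j.succ.succ =
      if i = j then (‖w‖ : ℂ) else 0 := by
    intro i j
    rcases lt_trichotomy i j with h | h | h
    · have h2 : i.succ.succ < j.succ.succ := by simpa using h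
      rw [hm_lt _ h2, ylss, ylss, if_neg h.ne, if_neg h.ne', if_neg h.ne]
      simp
    · rw [h, hm_diag, ylss, if_pos rfl, if_pos rfl]
    · have h2 : j.succ.succ < i.succ.succ := by simpa using h
      rw [hm_gt _ h2, ylss, ylss, if_neg h.ne, if_neg h.ne', if_neg h.ne']
      simp
  have hs1 : (Fin.succ 0 : Fin (r + 2)) = 1 := rfl
  have e0 : (Matrix.mulVec (hermMat (yl r w)) x) 0 =
      ((w 0 + w 1 : ℝ) : ℂ) * x 0 + ((w 2 : ℂ) + (w 3 : ℂ) * Complex.I) * x 1 := by
    rw [Matrix.mulVec, dotProduct, Fin.sum_univ_succ, Fin.sum_univ_succ, hs1, hm_diag,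
      hm_lt _ h01, yl00, yl01, yl10]
    have : ∀ i : Fin r, hermMat (yl r w) 0 i.succ.succ * x i.succ.succ = 0 := by
      intro i
      rw [hm_lt _ (h0s i), yl0s, yls0]
      simp
    rw [Finset.sum_congr rfl (fun i _ => this i)]
    simp
  have e1 : (Matrix.mulVec (hermMat (yl r w)) x) 1 =
      ((w 2 : ℂ) - (w 3 : ℂ) * Complex.I) * x 0 + ((w 0 - w 1 : ℝ) : ℂ) * x 1 := by
    rw [Matrix.mulVec, dotProduct, Fin.sum_univ_succ, Fin.sum_univ_succ, hs1, hm_diag,
      hm_gt _ h01, yl11, yl01, yl10]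
    have : ∀ i : Fin r, hermMat (yl r w) 1 i.succ.succ * x i.succ.succ = 0 := by
      intro i
      rw [hm_lt _ (h1s i), yl1s, yls1]
      simp
    rw [Finset.sum_congr rfl (fun i _ => this i)]
    simp
  have es : ∀ i : Fin r, (Matrix.mulVec (hermMat (yl r w)) x) i.succ.succ =
      (‖w‖ : ℂ) * x i.succ.succ := by
    intro i
    rw [Matrix.mulVec, dotProduct, Fin.sum_univ_succ, Fin.sum_univ_succ, hs1,
      hm_gt _ (h0s i), hm_gt _ (h1s i), yl0s, yls0, yl1s, yls1]
    have : ∀ j : Fin r, hermMat (yl r w) i.succ.succ j.succ.succ * x j.succ.succ =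
        if i = j then (‖w‖ : ℂ) * x j.succ.succ else 0 := by
      intro j
      rw [hss]
      split_ifs <;> simp
    rw [Finset.sum_congr rfl (fun j _ => this j)]
    simp
  rw [dotProduct, Fin.sum_univ_succ, Fin.sum_univ_succ, hs1, e0, e1]
  simp only [es, Pi.star_apply]
  ring

end Y765

open Y765 in
theorem t_HEP : HEP := by
  classical
  intro r
  refine ⟨?_, 2, ?_⟩
  · intro y hy
    replace hy : (hermMat y).PosDef := hy
    have h01 := zero_lt_one' r
    have ha : 0 < y (0, 0) := by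
      have h := hy.diag_pos (i := 0)
      rw [hm_diag] at h
      exact_mod_cast h
    have hc : 0 < y (1, 1) := by
      have h := hy.diag_pos (i := 1)
      rw [hm_diag] at h
      exact_mod_cast h
    have hinj : Function.Injective (![0, 1] : Fin 2 → Fin (r + 2)) := by
      intro i j hij
      fin_cases i <;> fin_cases j <;> simp_all
    have hdet := (hy.submatrix hinj).det_pos
    rw [Matrix.det_fin_two] at hdet
    simp only [Matrix.submatrix_apply, Matrix.cons_val_zero, Matrix.cons_val_one] at hdet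
    rw [hm_diag, hm_diag, hm_lt _ h01, hm_gt _ h01] at hdet
    have hd : ((y (0, 0) : ℂ) * (y (1, 1) : ℂ) - ((y (0, 1) : ℂ) + (y (1, 0) : ℂ) * Complex.I) *
        ((y (0, 1) : ℂ) - (y (1, 0) : ℂ) * Complex.I)) =
        ((y (0, 0) * y (1, 1) - y (0, 1) ^ 2 - y (1, 0) ^ 2 : ℝ) : ℂ) := by
      push_cast
      linear_combination ((y (1, 0) : ℂ)) ^ 2 * Complex.I_sq
    rw [hd] at hdet
    have hdet' : 0 < y (0, 0) * y (1, 1) - y (0, 1) ^ 2 - y (1, 0) ^ 2 := by exact_mod_cast hdet
    change 0 < (hermProj r y) 0 ∧ 0 < (hermProj r y) 0 ^ 2 -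
      ∑ j : Fin 3, (hermProj r y) j.succ ^ 2
    rw [Fin.sum_univ_three]
    have p0 : (hermProj r y) 0 = (y (0, 0) + y (1, 1)) / 2 := rfl
    have p1 : (hermProj r y) (Fin.succ 0) = (y (0, 0) - y (1, 1)) / 2 := rfl
    have p2 : (hermProj r y) (Fin.succ 1) = y (0, 1) := rfl
    have p3 : (hermProj r y) (Fin.succ 2) = y (1, 0) := rfl
    rw [p0, p1, p2, p3]
    constructor
    · linarith
    · have : ((y (0, 0) + y (1, 1)) / 2) ^ 2 - (((y (0, 0) - y (1, 1)) / 2) ^ 2 +
          y (0, 1) ^ 2 + y (1, 0) ^ 2) = y (0, 0) * y (1, 1) - y (0, 1) ^ 2 - y (1, 0) ^ 2 := by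
        ring
      linarith
  · intro w hw
    obtain ⟨hw0, hw1⟩ := hw
    rw [Fin.sum_univ_three] at hw1
    have hw1' : 0 < w 0 ^ 2 - (w 1 ^ 2 + w 2 ^ 2 + w 3 ^ 2) := hw1
    have hn : ∀ j, |w j| ≤ ‖w‖ := fun j => by
      have := norm_le_pi_norm w j
      rwa [Real.norm_eq_abs] at this
    have hwn : 0 < ‖w‖ := lt_of_lt_of_le (abs_pos.mpr hw0.ne') (hn 0)
    refine ⟨yl r w, ?_, ?_, ?_⟩
    · have habs : |w 1| < w 0 := by
        apply abs_lt_of_sq_lt_sq _ hw0.le
        nlinarith [sq_nonneg (w 2), sq_nonneg (w 3)]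
      have ha : 0 < w 0 + w 1 := by linarith [(abs_lt.mp habs).1]
      change (hermMat (yl r w)).PosDef
      refine Matrix.PosDef.of_dotProduct_mulVec_pos (hm_herm _) ?_
      intro x hx
      rw [form]
      obtain ⟨u, hu⟩ : ∃ u : ℂ, u = ((w 0 + w 1 : ℝ) : ℂ) * x 0 +
        ((w 2 : ℂ) + (w 3 : ℂ) * Complex.I) * x 1 := ⟨_, rfl⟩
      obtain ⟨D, hD⟩ : ∃ D : ℝ, D = w 0 ^ 2 - (w 1 ^ 2 + w 2 ^ 2 + w 3 ^ 2) := ⟨_, rfl⟩
      rw [← hD] at hw1'
      have hac : ((w 0 + w 1 : ℝ) : ℂ) ≠ 0 := by exact_mod_cast ha.ne'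
      have key : star (x 0) * (((w 0 + w 1 : ℝ) : ℂ) * x 0 +
          ((w 2 : ℂ) + (w 3 : ℂ) * Complex.I) * x 1) +
          star (x 1) * (((w 2 : ℂ) - (w 3 : ℂ) * Complex.I) * x 0 +
            ((w 0 - w 1 : ℝ) : ℂ) * x 1) +
          ∑ i : Fin r, star (x i.succ.succ) * ((‖w‖ : ℂ) * x i.succ.succ) =
          (((Complex.normSq u + D * Complex.normSq (x 1)) / (w 0 + w 1) +
            ∑ i : Fin r, ‖w‖ * Complex.normSq (x i.succ.succ) : ℝ) : ℂ) := by
        have hsum : ∑ i : Fin r, star (x i.succ.succ) * ((‖w‖ : ℂ) * x i.succ.succ) =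
            ((∑ i : Fin r, ‖w‖ * Complex.normSq (x i.succ.succ) : ℝ) : ℂ) := by
          rw [Complex.ofReal_sum]
          refine Finset.sum_congr rfl fun i _ => ?_
          rw [Complex.ofReal_mul, Complex.normSq_eq_conj_mul_self, Complex.star_def]
          ring
        have hN : (((Complex.normSq u + D * Complex.normSq (x 1)) / (w 0 + w 1) : ℝ) : ℂ) =
            ((starRingEnd ℂ) u * u + (D : ℂ) * ((starRingEnd ℂ) (x 1) * x 1)) /
              ((w 0 + w 1 : ℝ) : ℂ) := by
          rw [Complex.ofReal_div, Complex.ofReal_add (Complex.normSq u), Complex.ofReal_mul,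
            Complex.normSq_eq_conj_mul_self, Complex.normSq_eq_conj_mul_self]
        rw [hsum, Complex.ofReal_add ((Complex.normSq u + D * Complex.normSq (x 1)) /
          (w 0 + w 1)), hN]
        congr 1
        rw [eq_div_iff hac, hu, hD]
        simp only [Complex.star_def, map_add, map_mul, Complex.conj_ofReal, Complex.conj_I]
        push_cast
        linear_combination ((w 3 : ℂ) ^ 2 * (starRingEnd ℂ) (x 1) * x 1) * Complex.I_sq
      rw [key]
      have hS : 0 ≤ ∑ i : Fin r, ‖w‖ * Complex.normSq (x i.succ.succ) :=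
        Finset.sum_nonneg fun i _ => mul_nonneg hwn.le (Complex.normSq_nonneg _)
      have hU : 0 ≤ Complex.normSq u := Complex.normSq_nonneg _
      have hX1 : 0 ≤ D * Complex.normSq (x 1) := mul_nonneg hw1'.le (Complex.normSq_nonneg _)
      have hQ : 0 ≤ (Complex.normSq u + D * Complex.normSq (x 1)) / (w 0 + w 1) := by positivity
      have hpos : 0 < (Complex.normSq u + D * Complex.normSq (x 1)) / (w 0 + w 1) +
          ∑ i : Fin r, ‖w‖ * Complex.normSq (x i.succ.succ) := by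
        by_contra hcon
        have h1 : (Complex.normSq u + D * Complex.normSq (x 1)) / (w 0 + w 1) = 0 := by linarith
        have h2 : ∑ i : Fin r, ‖w‖ * Complex.normSq (x i.succ.succ) = 0 := by linarith
        have h3 : Complex.normSq u + D * Complex.normSq (x 1) = 0 := by
          rcases div_eq_zero_iff.mp h1 with h | h
          · exact h
          · linarith
        have h4 : x 1 = 0 := by
          have : D * Complex.normSq (x 1) = 0 := by linarith
          rcases mul_eq_zero.mp this with h | h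
          · linarith
          · exact Complex.normSq_eq_zero.mp h
        have h5 : u = 0 := Complex.normSq_eq_zero.mp (by linarith)
        have h6 : x 0 = 0 := by
          rw [hu, h4, mul_zero, add_zero] at h5
          exact (mul_eq_zero.mp h5).resolve_left hac
        have h7 : ∀ i : Fin r, x i.succ.succ = 0 := by
          intro i
          have h8 := (Finset.sum_eq_zero_iff_of_nonneg (fun i _ =>
            mul_nonneg hwn.le (Complex.normSq_nonneg _))).mp h2 i (Finset.mem_univ i)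
          exact Complex.normSq_eq_zero.mp ((mul_eq_zero.mp h8).resolve_left hwn.ne')
        apply hx
        funext j
        refine Fin.cases h6 (fun j => ?_) j
        exact Fin.cases h4 (fun j => h7 j) j
      exact_mod_cast hpos
    · funext j
      fin_cases j
      · change (yl r w (0, 0) + yl r w (1, 1)) / 2 = w 0
        rw [yl00, yl11]; ring
      · change (yl r w (0, 0) - yl r w (1, 1)) / 2 = w 1
        rw [yl00, yl11]; ring
      · exact yl01 r w
      · exact yl10 r w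
    · rw [pi_norm_le_iff_of_nonneg (by positivity)]
      intro p
      rw [Real.norm_eq_abs]
      have h0 := abs_le.mp (hn 0)
      have h1 := abs_le.mp (hn 1)
      have h2 := abs_le.mp (hn 2)
      have h3 := abs_le.mp (hn 3)
      rw [abs_le]
      unfold yl
      split_ifs <;> constructor <;> linarith [h0.1, h0.2, h1.1, h1.2, h2.1, h2.2, h3.1, h3.2]

end Pool.Agent.Y263.HT
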