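import Pool.Agent.Y263.HT.Stm2

set_option autoImplicit false

/-! HER: the cone of positive definite Hermitian matrices is a regular cone. -/

namespace Pool.Agent.Y263.HT

namespace Y115Her

open MeasureTheory Filter Topology
open scoped ComplexOrder

variable {n : ℕ}

theorem herm (y : Fin n × Fin n → ℝ) : (hermMat y).IsHermitian := by
  ext j k
  rw [Matrix.conjTranspose_apply]
  unfold hermMat
  simp only [Matrix.of_apply]
  rcases lt_trichotomy j k with h | h | h
  · rw [if_neg h.not_gt, if_pos h, if_pos h]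
    simp
  · subst h
    rw [if_neg (lt_irrefl _), if_neg (lt_irrefl _)]
    simp
  · rw [if_pos h, if_neg h.not_gt, if_pos h]
    simp [sub_eq_add_neg]

theorem add (y z : Fin n × Fin n → ℝ) : hermMat (y + z) = hermMat y + hermMat z := by
  ext j k
  rw [Matrix.add_apply]
  unfold hermMat
  simp only [Matrix.of_apply, Pi.add_apply]
  split_ifs <;> push_cast <;> ring

theorem smul (c : ℝ) (y : Fin n × Fin n → ℝ) : hermMat (c • y) = (c : ℂ) • hermMat y := by
  ext j k
  rw [Matrix.smul_apply]
  unfold hermMat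
  simp only [Matrix.of_apply, Pi.smul_apply, smul_eq_mul]
  split_ifs <;> push_cast <;> ring

/-- the quadratic form -/
noncomputable def q (y : Fin n × Fin n → ℝ) (x : Fin n → ℂ) : ℝ :=
  (star x ⬝ᵥ (Matrix.mulVec (hermMat y) x)).re

theorem q_add (y z : Fin n × Fin n → ℝ) (x : Fin n → ℂ) : q (y + z) x = q y x + q z x := by
  unfold q
  rw [add, Matrix.add_mulVec, dotProduct_add, Complex.add_re]

theorem q_smul (c : ℝ) (y : Fin n × Fin n → ℝ) (x : Fin n → ℂ) : q (c • y) x = c * q y x := by
  unfold q
  rw [smul, Matrix.smul_mulVec, dotProduct_smul, smul_eq_mul, Complex.re_ofReal_mul]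

theorem q_scale (y : Fin n × Fin n → ℝ) (c : ℝ) (x : Fin n → ℂ) :
    q y ((c : ℂ) • x) = c ^ 2 * q y x := by
  unfold q
  rw [Matrix.mulVec_smul, dotProduct_smul, star_smul, smul_dotProduct, smul_eq_mul, smul_eq_mul,
    ← mul_assoc, Complex.star_def, Complex.conj_ofReal, ← Complex.ofReal_mul,
    Complex.re_ofReal_mul]
  ring

theorem im_zero (y : Fin n × Fin n → ℝ) (x : Fin n → ℂ) :
    (star x ⬝ᵥ (Matrix.mulVec (hermMat y) x)).im = 0 :=
  (herm y).im_star_dotProduct_mulVec_self x

theorem pd_iff (y : Fin n × Fin n → ℝ) :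
    (hermMat y).PosDef ↔ ∀ x : Fin n → ℂ, x ≠ 0 → 0 < q y x := by
  rw [Matrix.posDef_iff_dotProduct_mulVec]
  constructor
  · intro h x hx
    exact (Complex.pos_iff.1 (h.2 hx)).1
  · intro h
    exact ⟨herm y, fun x hx => Complex.pos_iff.2 ⟨h x hx, (im_zero y x).symm⟩⟩

theorem pd_iff' (y : Fin n × Fin n → ℝ) :
    (hermMat y).PosDef ↔ ∀ x ∈ Metric.sphere (0 : Fin n → ℂ) 1, 0 < q y x := by
  rw [pd_iff]
  constructor
  · intro h x hx
    apply h
    rintro rfl
    simp at hx
  · intro h x hx
    have hn : 0 < ‖x‖ := norm_pos_iff.2 hx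
    have h1 : ((‖x‖⁻¹ : ℝ) : ℂ) • x ∈ Metric.sphere (0 : Fin n → ℂ) 1 := by
      rw [mem_sphere_zero_iff_norm, norm_smul, Complex.norm_real, norm_inv, norm_norm,
        inv_mul_cancel₀ hn.ne']
    have h2 := h _ h1
    rw [q_scale] at h2
    have h3 : 0 < (‖x‖⁻¹ : ℝ) ^ 2 := by positivity
    exact (mul_pos_iff_of_pos_left h3).1 h2

theorem q_cont : Continuous fun p : (Fin n × Fin n → ℝ) × (Fin n → ℂ) => q p.1 p.2 := by
  have hA : Continuous fun y : Fin n × Fin n → ℝ => hermMat y := by
    refine continuous_matrix fun j k => ?_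
    unfold hermMat
    simp only [Matrix.of_apply]
    split_ifs <;> fun_prop
  unfold q
  refine Complex.continuous_re.comp ?_
  refine Continuous.dotProduct (continuous_star.comp continuous_snd) ?_
  exact Continuous.matrix_mulVec (hA.comp continuous_fst) continuous_snd

theorem isOpen_pd : IsOpen {y : Fin n × Fin n → ℝ | (hermMat y).PosDef} := by
  rw [isOpen_iff_mem_nhds]
  intro y hy
  have h1 : ∀ᶠ z in 𝓝 y, ∀ x ∈ Metric.sphere (0 : Fin n → ℂ) 1, 0 < q z x := by
    refine (isCompact_sphere (0 : Fin n → ℂ) 1).eventually_forall_of_forall_eventually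
      (P := fun z x => 0 < q z x) ?_
    intro x hx
    exact (q_cont.continuousAt (x := (y, x))).eventually_const_lt
      ((pd_iff' y).1 hy x hx)
  filter_upwards [h1] with z hz
  exact (pd_iff' z).2 hz

theorem zero_of_form {v : Fin n × Fin n → ℝ} (h : ∀ x, q v x = 0) : v = 0 := by
  have h1 : (hermMat v).PosSemidef := Matrix.PosSemidef.of_dotProduct_mulVec_nonneg (herm v)
    fun x => Complex.nonneg_iff.2 ⟨(h x).ge, (im_zero v x).symm⟩
  have h2 : (-hermMat v).PosSemidef := by
    refine Matrix.PosSemidef.of_dotProduct_mulVec_nonneg (herm v).neg fun x => ?_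
    rw [Matrix.neg_mulVec, dotProduct_neg]
    refine Complex.nonneg_iff.2 ⟨?_, ?_⟩
    · rw [Complex.neg_re]
      have := h x
      unfold q at this
      rw [this, neg_zero]
    · rw [Complex.neg_im, im_zero, neg_zero]
  have h3 : hermMat v = 0 := by
    let _ : PartialOrder (Matrix (Fin n) (Fin n) ℂ) := Matrix.instPartialOrder
    refine le_antisymm ?_ ?_
    · show (0 - hermMat v).PosSemidef
      rw [zero_sub]
      exact h2
    · show (hermMat v - 0).PosSemidef
      rw [sub_zero]
      exact h1
  funext ⟨j, k⟩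
  rcases lt_trichotomy j k with hjk | hjk | hjk
  · have h4 := congrFun (congrFun h3 j) k
    unfold hermMat at h4
    simp only [Matrix.of_apply, Matrix.zero_apply] at h4
    rw [if_pos hjk] at h4
    have := congrArg Complex.re h4
    simpa using this
  · subst hjk
    have h4 := congrFun (congrFun h3 j) j
    unfold hermMat at h4
    simp only [Matrix.of_apply, Matrix.zero_apply] at h4
    rw [if_neg (lt_irrefl _), if_neg (lt_irrefl _)] at h4
    have := congrArg Complex.re h4
    simpa using this
  · have h4 := congrFun (congrFun h3 k) j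
    unfold hermMat at h4
    simp only [Matrix.of_apply, Matrix.zero_apply] at h4
    rw [if_pos hjk] at h4
    have := congrArg Complex.im h4
    simpa using this

theorem regular : IsRegularCone {y : Fin n × Fin n → ℝ | (hermMat y).PosDef} := by
  refine ⟨isOpen_pd, ?_, ?_, ?_, ?_⟩
  · intro y hy z hz a b ha hb hab
    simp only [Set.mem_setOf_eq] at hy hz ⊢
    rw [pd_iff] at hy hz ⊢
    intro x hx
    rw [q_add, q_smul, q_smul]
    rcases ha.eq_or_lt with h | h
    · have hb1 : b = 1 := by linarith
      rw [← h, hb1, zero_mul, zero_add, one_mul]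
      exact hz x hx
    · have h1 := mul_pos h (hy x hx)
      have h2 := mul_nonneg hb (hz x hx).le
      linarith
  · intro y hy t ht
    simp only [Set.mem_setOf_eq] at hy ⊢
    rw [pd_iff] at hy ⊢
    intro x hx
    rw [q_smul]
    exact mul_pos ht (hy x hx)
  · refine ⟨fun p => if p.1 = p.2 then 1 else 0, ?_⟩
    have h1 : hermMat (fun p : Fin n × Fin n => if p.1 = p.2 then (1 : ℝ) else 0) = 1 := by
      ext j k
      unfold hermMat
      simp only [Matrix.of_apply]
      rcases lt_trichotomy j k with h | h | h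
      · rw [if_pos h, if_neg h.ne, if_neg h.ne', Matrix.one_apply_ne h.ne]
        simp
      · subst h
        rw [if_neg (lt_irrefl _), if_neg (lt_irrefl _)]
        simp
      · rw [if_neg h.not_gt, if_pos h, if_neg h.ne, if_neg h.ne', Matrix.one_apply_ne h.ne']
        simp
    show (hermMat (fun p : Fin n × Fin n => if p.1 = p.2 then (1 : ℝ) else 0)).PosDef
    rw [h1]
    exact Matrix.PosDef.one
  · rintro ⟨a, v, hv, h⟩
    apply hv
    apply zero_of_form
    intro x
    by_cases hx : x = 0
    · subst hx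
      unfold q
      simp
    · by_contra hne
      have h1 := (pd_iff _).1 (h (-(q a x) / q v x)) x hx
      rw [q_add, q_smul, div_mul_cancel₀ _ hne] at h1
      linarith

end Y115Her

theorem t_HER : HER := fun _ => Y115Her.regular

end Pool.Agent.Y263.HT
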