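import Pool.Agent.Y263.HT.Stm2

set_option autoImplicit false

/-! Jobs IMG and LCR of project HT (MP_730078_an), by helper297: linear isomorphisms preserve
regular cones, and the light cone is a regular cone. -/

namespace Pool.Agent.Y263.HT

open MeasureTheory Filter Topology

theorem t_IMG : IMG := by
  intro ι κ _ _ e Γ hΓ
  obtain ⟨hO, hC, hcone, hne, hline⟩ := hΓ
  have himg : (e '' Γ) = e.symm ⁻¹' Γ := by
    ext x
    constructor
    · rintro ⟨y, hy, rfl⟩
      show e.symm (e y) ∈ Γ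
      rw [e.symm_apply_apply]
      exact hy
    · intro hx
      exact ⟨e.symm x, hx, e.apply_symm_apply x⟩
  rw [himg]
  have hcont : Continuous (fun x => e.symm x) :=
    LinearMap.continuous_of_finiteDimensional (e.symm : (κ → ℝ) →ₗ[ℝ] (ι → ℝ))
  refine ⟨hO.preimage hcont, ?_, ?_, ?_, ?_⟩
  · exact hC.linear_preimage (e.symm : (κ → ℝ) →ₗ[ℝ] (ι → ℝ))
  · intro y hy t ht
    show e.symm (t • y) ∈ Γ
    rw [map_smul]
    exact hcone _ hy t ht
  · obtain ⟨y, hy⟩ := hne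
    refine ⟨e y, ?_⟩
    show e.symm (e y) ∈ Γ
    rw [e.symm_apply_apply]
    exact hy
  · rintro ⟨a, v, hv, h⟩
    refine hline ⟨e.symm a, e.symm v, ?_, fun t => ?_⟩
    · intro h0
      exact hv (by rw [← e.apply_symm_apply v, h0, map_zero])
    · have h1 : e.symm (a + t • v) ∈ Γ := h t
      rwa [map_add, map_smul] at h1

theorem t_LCR : LCR := by
  intro m
  refine ⟨?_, ?_, ?_, ?_, ?_⟩
  · have h1 : IsOpen {y : Fin (m + 3) → ℝ | 0 < y 0} :=
      isOpen_lt continuous_const (continuous_apply 0)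
    have h2 : IsOpen {y : Fin (m + 3) → ℝ | 0 < y 0 ^ 2 - ∑ j : Fin (m + 2), y j.succ ^ 2} :=
      isOpen_lt continuous_const (by fun_prop)
    exact h1.inter h2
  · intro y hy w hw a b ha hb hab
    obtain ⟨hy1, hy2⟩ := hy
    obtain ⟨hw1, hw2⟩ := hw
    have hcs : (∑ j : Fin (m + 2), y j.succ * w j.succ) ^ 2 ≤
        (∑ j : Fin (m + 2), y j.succ ^ 2) * ∑ j : Fin (m + 2), w j.succ ^ 2 :=
      Finset.sum_mul_sq_le_sq_mul_sq _ _ _
    have hwn : 0 ≤ ∑ j : Fin (m + 2), w j.succ ^ 2 := Finset.sum_nonneg fun j _ => sq_nonneg _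
    have hmul : (∑ j : Fin (m + 2), y j.succ ^ 2) * ∑ j : Fin (m + 2), w j.succ ^ 2 <
        (y 0 * w 0) ^ 2 := by
      have e1 : (∑ j : Fin (m + 2), y j.succ ^ 2) * ∑ j : Fin (m + 2), w j.succ ^ 2 ≤
          y 0 ^ 2 * ∑ j : Fin (m + 2), w j.succ ^ 2 :=
        mul_le_mul_of_nonneg_right (by linarith) hwn
      have e2 : y 0 ^ 2 * ∑ j : Fin (m + 2), w j.succ ^ 2 < y 0 ^ 2 * w 0 ^ 2 :=
        mul_lt_mul_of_pos_left (by linarith) (by positivity)
      calc _ ≤ _ := e1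
        _ < _ := e2
        _ = (y 0 * w 0) ^ 2 := by ring
    have hlt : ∑ j : Fin (m + 2), y j.succ * w j.succ < y 0 * w 0 :=
      lt_of_le_of_lt (le_abs_self _)
        (abs_lt_of_sq_lt_sq (lt_of_le_of_lt hcs hmul) (mul_pos hy1 hw1).le)
    have hexp : ∑ j : Fin (m + 2), (a * y j.succ + b * w j.succ) ^ 2 =
        a ^ 2 * (∑ j : Fin (m + 2), y j.succ ^ 2) + b ^ 2 * (∑ j : Fin (m + 2), w j.succ ^ 2) +
          2 * a * b * (∑ j : Fin (m + 2), y j.succ * w j.succ) := by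
      rw [Finset.mul_sum, Finset.mul_sum, Finset.mul_sum, ← Finset.sum_add_distrib,
        ← Finset.sum_add_distrib]
      exact Finset.sum_congr rfl fun j _ => by ring
    show 0 < a * y 0 + b * w 0 ∧
      0 < (a * y 0 + b * w 0) ^ 2 - ∑ j : Fin (m + 2), (a * y j.succ + b * w j.succ) ^ 2
    rcases ha.eq_or_lt with h0 | h0
    · subst h0
      have hb1 : b = 1 := by linarith
      subst hb1
      simp only [zero_mul, one_mul, zero_add]
      exact ⟨hw1, hw2⟩
    · refine ⟨?_, ?_⟩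
      · have := mul_pos h0 hy1
        have := mul_nonneg hb hw1.le
        linarith
      · rw [hexp]
        have k1 : 0 < a ^ 2 * (y 0 ^ 2 - ∑ j : Fin (m + 2), y j.succ ^ 2) :=
          mul_pos (by positivity) hy2
        have k2 : 0 ≤ b ^ 2 * (w 0 ^ 2 - ∑ j : Fin (m + 2), w j.succ ^ 2) :=
          mul_nonneg (by positivity) hw2.le
        have k3 : 0 ≤ 2 * a * b * (y 0 * w 0 - ∑ j : Fin (m + 2), y j.succ * w j.succ) :=
          mul_nonneg (by positivity) (by linarith)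
        nlinarith [k1, k2, k3]
  · intro y hy t ht
    obtain ⟨hy1, hy2⟩ := hy
    show 0 < t * y 0 ∧ 0 < (t * y 0) ^ 2 - ∑ j : Fin (m + 2), (t * y j.succ) ^ 2
    refine ⟨mul_pos ht hy1, ?_⟩
    have hexp : ∑ j : Fin (m + 2), (t * y j.succ) ^ 2 =
        t ^ 2 * ∑ j : Fin (m + 2), y j.succ ^ 2 := by
      rw [Finset.mul_sum]
      exact Finset.sum_congr rfl fun j _ => by ring
    rw [hexp]
    have k1 : 0 < t ^ 2 * (y 0 ^ 2 - ∑ j : Fin (m + 2), y j.succ ^ 2) :=
      mul_pos (by positivity) hy2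
    nlinarith [k1]
  · refine ⟨Pi.single 0 1, ?_⟩
    show 0 < (Pi.single 0 1 : Fin (m + 3) → ℝ) 0 ∧
      0 < (Pi.single 0 1 : Fin (m + 3) → ℝ) 0 ^ 2 -
        ∑ j : Fin (m + 2), (Pi.single 0 1 : Fin (m + 3) → ℝ) j.succ ^ 2
    have hz : ∑ j : Fin (m + 2), (Pi.single 0 1 : Fin (m + 3) → ℝ) j.succ ^ 2 = 0 := by
      refine Finset.sum_eq_zero fun j _ => ?_
      rw [Pi.single_eq_of_ne (Fin.succ_ne_zero j)]
      norm_num
    rw [hz, Pi.single_eq_same]
    norm_num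
  · rintro ⟨a, v, hv, h⟩
    have h1 : ∀ t : ℝ, 0 < a 0 + t * v 0 := fun t => (h t).1
    have h2 : ∀ t : ℝ, 0 < (a 0 + t * v 0) ^ 2 -
        ∑ j : Fin (m + 2), (a j.succ + t * v j.succ) ^ 2 := fun t => (h t).2
    have hv0 : v 0 = 0 := by
      by_contra hne
      have h3 := h1 (-a 0 / v 0)
      rw [div_mul_cancel₀ _ hne] at h3
      linarith
    apply hv
    funext i
    refine Fin.cases hv0 (fun j => ?_) i
    by_contra hne
    have hne' : v j.succ ≠ 0 := hne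
    have h3 := h2 ((a 0 - a j.succ) / v j.succ)
    have h4 : (a j.succ + (a 0 - a j.succ) / v j.succ * v j.succ) ^ 2 ≤
        ∑ i : Fin (m + 2), (a i.succ + (a 0 - a j.succ) / v j.succ * v i.succ) ^ 2 :=
      Finset.single_le_sum (f := fun i : Fin (m + 2) =>
        (a i.succ + (a 0 - a j.succ) / v j.succ * v i.succ) ^ 2)
        (fun i _ => sq_nonneg _) (Finset.mem_univ j)
    rw [div_mul_cancel₀ _ hne'] at h4
    rw [hv0] at h3
    have h5 : (a j.succ + (a 0 - a j.succ)) ^ 2 = (a 0 + (a 0 - a j.succ) / v j.succ * 0) ^ 2 := by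
      ring
    linarith

end Pool.Agent.Y263.HT
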