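import Pool.Agent.Y263.HT.Stm

set_option autoImplicit false

/-! Second list of statements of project HT (MP_730078_an). -/

namespace Pool.Agent.Y263.HT

open MeasureTheory Filter Topology
open scoped ComplexOrder

/-- FIB: nonnegative functionals that are independent on the fibres of the projection. -/
def FIB : Prop := DUA → ∀ (κ lam : Type) [Fintype κ] [Fintype lam] (Γ : Set (κ ⊕ lam → ℝ)),
  IsRegularCone Γ → ∃ l : (κ ⊕ lam → ℝ) →ₗ[ℝ] (lam → ℝ), (∀ y ∈ Γ, ∀ j, 0 ≤ l y j) ∧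
    ∀ v : lam → ℝ, l (Sum.elim (0 : κ → ℝ) v) = 0 → v = 0

/-- LIN: invariance under linear isomorphisms. -/
def LIN : Prop := ∀ (ι κ : Type) [Fintype ι] [Fintype κ] (e : (ι → ℝ) ≃ₗ[ℝ] (κ → ℝ))
  (Γ : Set (ι → ℝ)) (p : ℝ), 0 < p → ∀ G : (κ → ℂ) → ℂ, InHardy (e '' Γ) p G →
  (∀ᵐ x : κ → ℝ, UnboundedAt (e '' Γ) G x) →
  ∃ H : (ι → ℂ) → ℂ, InHardy Γ p H ∧ ∀ᵐ x : ι → ℝ, UnboundedAt Γ H x

/-- SPL: a surjective linear map is a coordinate projection in suitable linear coordinates. -/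
def SPL : Prop := ∀ (ι κ : Type) [Fintype ι] [Fintype κ] (π : (ι → ℝ) →ₗ[ℝ] (κ → ℝ)),
  Function.Surjective π → ∃ (k : ℕ) (e : (ι → ℝ) ≃ₗ[ℝ] (κ ⊕ Fin k → ℝ)),
    ∀ y j, e y (Sum.inl j) = π y j

/-- IMG: linear isomorphisms preserve regular cones. -/
def IMG : Prop := ∀ (ι κ : Type) [Fintype ι] [Fintype κ] (e : (ι → ℝ) ≃ₗ[ℝ] (κ → ℝ))
  (Γ : Set (ι → ℝ)), IsRegularCone Γ → IsRegularCone (e '' Γ)

/-- LCR: the light cone is a regular cone. -/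
def LCR : Prop := ∀ m : ℕ, IsRegularCone (lightCone m)

/-- The product of two cones. -/
def prodCone {κ lam : Type} (Γ₁ : Set (κ → ℝ)) (Γ₂ : Set (lam → ℝ)) : Set (κ ⊕ lam → ℝ) :=
  {y | (fun k => y (Sum.inl k)) ∈ Γ₁ ∧ (fun k => y (Sum.inr k)) ∈ Γ₂}

/-- `Γ` is mapped into `Γ₁` by the linear map `π`, and the points of `Γ₁` have preimages in `Γ` of
comparable norm. -/
def MapsOnto {ι κ : Type} [Fintype ι] [Fintype κ] (Γ : Set (ι → ℝ)) (Γ₁ : Set (κ → ℝ))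
    (π : (ι → ℝ) →ₗ[ℝ] (κ → ℝ)) : Prop :=
  (∀ y ∈ Γ, π y ∈ Γ₁) ∧ ∃ K : ℝ, ∀ y₁ ∈ Γ₁, ∃ y ∈ Γ, π y = y₁ ∧ ‖y‖ ≤ K * ‖y₁‖

/-- PRD: products of regular cones. -/
def PRD : Prop := ∀ (κ lam : Type) [Fintype κ] [Fintype lam] (Γ₁ : Set (κ → ℝ)) (Γ₂ : Set (lam → ℝ)),
  IsRegularCone Γ₁ → IsRegularCone Γ₂ → (0 : κ → ℝ) ∉ Γ₁ →
  IsRegularCone (prodCone Γ₁ Γ₂) ∧
    MapsOnto (prodCone Γ₁ Γ₂) Γ₁ (LinearMap.funLeft ℝ ℝ (Sum.inl : κ → κ ⊕ lam))

/-- The Hermitian matrix with coordinates `y`: `A j j = y (j, j)` and `A j k = y (j, k) + i y (k, j)`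
for `j < k`. -/
noncomputable def hermMat {n : ℕ} (y : Fin n × Fin n → ℝ) : Matrix (Fin n) (Fin n) ℂ :=
  Matrix.of fun j k =>
    if j < k then (y (j, k) : ℂ) + (y (k, j) : ℂ) * Complex.I
    else if k < j then (y (k, j) : ℂ) - (y (j, k) : ℂ) * Complex.I
    else (y (j, j) : ℂ)

/-- The upper left block of a Hermitian matrix, in light cone coordinates. -/
noncomputable def hermProj (r : ℕ) : (Fin (r + 2) × Fin (r + 2) → ℝ) →ₗ[ℝ] (Fin 4 → ℝ) where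
  toFun y := ![(y (0, 0) + y (1, 1)) / 2, (y (0, 0) - y (1, 1)) / 2, y (0, 1), y (1, 0)]
  map_add' y z := by
    funext j
    fin_cases j <;> simp <;> ring
  map_smul' c y := by
    funext j
    fin_cases j <;> simp <;> ring

/-- HEP: positive definite Hermitian matrices over the light cone of dimension 4. -/
def HEP : Prop := ∀ r : ℕ,
  MapsOnto {y : Fin (r + 2) × Fin (r + 2) → ℝ | (hermMat y).PosDef} (lightCone 1) (hermProj r)

/-- HER: the cone of positive definite Hermitian matrices is regular. -/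
def HER : Prop := ∀ r : ℕ, IsRegularCone {y : Fin (r + 2) × Fin (r + 2) → ℝ | (hermMat y).PosDef}

end Pool.Agent.Y263.HT
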