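import Mathlib
import Pool.Agent.Y263.HT.Stm2

/-!
Project HT (MP_730078_an): invariance of the Hardy spaces of tubes under linear isomorphisms.
-/

set_option autoImplicit false

namespace Pool.Agent.Y263.HT.LinJob

open MeasureTheory Filter Topology
open scoped ENNReal

variable {ι κ : Type} [Fintype ι] [Fintype κ]

/-- the complexification of a linear map -/
noncomputable def cx (e : (ι → ℝ) ≃ₗ[ℝ] (κ → ℝ)) (z : ι → ℂ) : κ → ℂ := by
  classical
  exact fun j => ∑ k, ((e (Pi.single k 1) j : ℝ) : ℂ) * z k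

omit [Fintype κ] in
lemma apply_eq [DecidableEq ι] (e : (ι → ℝ) ≃ₗ[ℝ] (κ → ℝ)) (x : ι → ℝ) (j : κ) :
    e x j = ∑ k, e (Pi.single k 1) j * x k := by
  have h1 := LinearMap.pi_apply_eq_sum_univ e.toLinearMap x
  have h2 := congrFun h1 j
  rw [Finset.sum_apply] at h2
  have h3 : e x j = e.toLinearMap x j := rfl
  rw [h3, h2]
  refine Finset.sum_congr rfl fun k _ => ?_
  rw [Pi.smul_apply, smul_eq_mul, mul_comm]
  have h4 : (fun j => if k = j then (1 : ℝ) else 0) = Pi.single k 1 := by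
    funext i
    rw [Pi.single_apply]
    simp only [eq_comm]
  rw [h4]
  rfl

lemma cx_pt (e : (ι → ℝ) ≃ₗ[ℝ] (κ → ℝ)) (x y : ι → ℝ) : cx e (pt x y) = pt (e x) (e y) := by
  classical
  funext j
  unfold cx pt
  rw [apply_eq e x j, apply_eq e y j]
  push_cast
  rw [Finset.sum_mul, ← Finset.sum_add_distrib]
  refine Finset.sum_congr rfl fun k _ => ?_
  ring

lemma cx_im (e : (ι → ℝ) ≃ₗ[ℝ] (κ → ℝ)) (z : ι → ℂ) :
    (fun j => (cx e z j).im) = e (fun k => (z k).im) := by
  classical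
  have h1 : z = pt (fun k => (z k).re) (fun k => (z k).im) := by
    funext k
    exact (Complex.re_add_im (z k)).symm
  conv_lhs => rw [h1, cx_pt]
  funext j
  unfold pt
  simp

lemma cx_diff (e : (ι → ℝ) ≃ₗ[ℝ] (κ → ℝ)) : Differentiable ℂ (cx e) := by
  unfold cx
  rw [differentiable_pi]
  intro j
  fun_prop

end Pool.Agent.Y263.HT.LinJob

namespace Pool.Agent.Y263.HT

open MeasureTheory Filter Topology
open scoped ENNReal

theorem t_LIN : LIN := by
  intro ι κ _ _ e Γ p hp G hG hun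
  set ec : (ι → ℝ) ≃L[ℝ] (κ → ℝ) := e.toContinuousLinearEquiv with hec
  set em : (ι → ℝ) ≃ᵐ (κ → ℝ) := ec.toHomeomorph.toMeasurableEquiv with hem
  have hem' : ∀ x, em x = e x := fun x => rfl
  have : Measure.IsAddHaarMeasure (Measure.map em (volume : Measure (ι → ℝ))) :=
    ContinuousLinearEquiv.isAddHaarMeasure_map ec volume
  have hc := Measure.isAddLeftInvariant_eq_smul
    (Measure.map em (volume : Measure (ι → ℝ))) (volume : Measure (κ → ℝ))
  generalize Measure.addHaarScalarFactor (Measure.map em (volume : Measure (ι → ℝ)))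
    (volume : Measure (κ → ℝ)) = c at hc
  refine ⟨fun z => G (LinJob.cx e z), ⟨?_, ?_⟩, ?_⟩
  · refine hG.1.comp (LinJob.cx_diff e).differentiableOn ?_
    intro z hz
    show (fun j => (LinJob.cx e z j).im) ∈ e '' Γ
    rw [LinJob.cx_im]
    exact ⟨_, hz, rfl⟩
  · obtain ⟨C, hC⟩ := hG.2
    refine ⟨((c : ℝ≥0∞) * ENNReal.ofReal C).toReal, fun y hy => ?_⟩
    rw [ENNReal.ofReal_toReal (ENNReal.mul_ne_top ENNReal.coe_ne_top ENNReal.ofReal_ne_top)]
    have h1 := hC (e y) ⟨y, hy, rfl⟩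
    have h2 : ∫⁻ x : ι → ℝ, ‖G (LinJob.cx e (pt x y))‖ₑ ^ p =
        ∫⁻ x' : κ → ℝ, ‖G (pt x' (e y))‖ₑ ^ p ∂(Measure.map em (volume : Measure (ι → ℝ))) := by
      rw [lintegral_map_equiv]
      refine lintegral_congr fun x => ?_
      rw [LinJob.cx_pt, hem']
    rw [h2, hc, lintegral_smul_measure, ENNReal.smul_def, smul_eq_mul]
    gcongr
  · have h1 : ∀ᵐ x' ∂(Measure.map em (volume : Measure (ι → ℝ))), UnboundedAt (e '' Γ) G x' := by
      rw [hc]
      exact Measure.ae_smul_measure hun c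
    rw [em.measurableEmbedding.ae_map_iff] at h1
    filter_upwards [h1] with x hx
    intro M δ hδ
    set K := ‖(ec.symm : (κ → ℝ) →L[ℝ] (ι → ℝ))‖ with hK
    have hK0 : 0 ≤ K := norm_nonneg _
    obtain ⟨y₂, ⟨y, hy, rfl⟩, hy2, hy3⟩ := hx M (δ / (K + 1)) (by positivity)
    refine ⟨y, hy, ?_, ?_⟩
    · have h2 : ‖y‖ ≤ K * ‖e y‖ := by
        have h3 := (ec.symm : (κ → ℝ) →L[ℝ] (ι → ℝ)).le_opNorm (e y)
        have h4 : (ec.symm : (κ → ℝ) →L[ℝ] (ι → ℝ)) (e y) = y := ec.symm_apply_apply y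
        rw [h4] at h3
        exact h3
      have h5 : K * ‖e y‖ ≤ K * (δ / (K + 1)) := mul_le_mul_of_nonneg_left hy2.le hK0
      have h6 : K * (δ / (K + 1)) < δ := by
        rw [← mul_div_assoc, div_lt_iff₀ (by linarith)]
        nlinarith
      linarith
    · show M < ‖G (LinJob.cx e (pt x y))‖
      rw [LinJob.cx_pt]
      exact hy3

end Pool.Agent.Y263.HT
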