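import Pool.Agent.Y263.HT.Stm

set_option autoImplicit false

/-! LP: the `L^p` quasi-norm of series with small coefficients (written by helper232) -/

namespace Pool.Agent.Y263.HT

open MeasureTheory Filter Topology

namespace Lp

theorem geo : ∑' k : ℕ, ((2 : ENNReal)⁻¹) ^ (k + 1) = 1 := by
  rw [ENNReal.tsum_geometric_add_one, ENNReal.one_sub_inv_two, inv_inv]
  exact ENNReal.inv_mul_cancel (by norm_num) (by norm_num)

/-- the pointwise bound -/
theorem sum_le (a : ℕ → ENNReal) : ∑' k, a k ≤ ⨆ k, 2 ^ (k + 1) * a k := by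
  calc ∑' k, a k ≤ ∑' k, (2 : ENNReal)⁻¹ ^ (k + 1) * ⨆ j, 2 ^ (j + 1) * a j := by
        refine ENNReal.tsum_le_tsum fun k => ?_
        have h1 : a k = (2 : ENNReal)⁻¹ ^ (k + 1) * (2 ^ (k + 1) * a k) := by
          rw [← mul_assoc, ← mul_pow, ENNReal.inv_mul_cancel (by norm_num) (by norm_num), one_pow,
            one_mul]
        calc a k = (2 : ENNReal)⁻¹ ^ (k + 1) * (2 ^ (k + 1) * a k) := h1
          _ ≤ _ := mul_le_mul_right (le_iSup (fun j => 2 ^ (j + 1) * a j) k) _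
    _ = ⨆ k, 2 ^ (k + 1) * a k := by
        rw [ENNReal.tsum_mul_right, geo, one_mul]

theorem rpow_iSup {p : ℝ} (hp : 0 < p) (b : ℕ → ENNReal) : (⨆ k, b k) ^ p ≤ ∑' k, b k ^ p := by
  have h : (⨆ k, b k) ^ p = ⨆ k, b k ^ p := (ENNReal.orderIsoRpow p hp).map_iSup b
  rw [h]
  exact iSup_le fun k => ENNReal.le_tsum k

end Lp

theorem t_LP : LP := by
  intro ι _ p A hp g hg hA c hc
  obtain ⟨q, hq⟩ : ∃ q : ℝ, q = (1 / 2 : ℝ) ^ p := ⟨_, rfl⟩
  have hq0 : 0 ≤ q := by rw [hq]; positivity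
  have hq1 : q < 1 := by
    rw [hq]
    exact Real.rpow_lt_one (by norm_num) (by norm_num) hp
  have hcoef : ∀ k, (2 : ENNReal) ^ (k + 1) * ‖c k‖ₑ ≤ ENNReal.ofReal ((1 / 2) ^ (k + 1)) := by
    intro k
    have h1 : ‖c k‖ₑ ≤ ENNReal.ofReal ((1 / 4) ^ (k + 1)) := by
      rw [← ofReal_norm]
      exact ENNReal.ofReal_le_ofReal (hc k)
    have h2 : (2 : ENNReal) ^ (k + 1) = ENNReal.ofReal (2 ^ (k + 1)) := by
      rw [ENNReal.ofReal_pow (by norm_num)]
      norm_num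
    calc (2 : ENNReal) ^ (k + 1) * ‖c k‖ₑ
        ≤ ENNReal.ofReal (2 ^ (k + 1)) * ENNReal.ofReal ((1 / 4) ^ (k + 1)) := by
          rw [h2]
          exact mul_le_mul_right h1 _
      _ = ENNReal.ofReal ((1 / 2) ^ (k + 1)) := by
          rw [← ENNReal.ofReal_mul (by positivity), ← mul_pow]
          norm_num
  have hpt : ∀ x : ι → ℝ, ‖∑' k, c k * g k x‖ₑ ^ p ≤
      ∑' k, ENNReal.ofReal (q ^ (k + 1)) * ‖g k x‖ₑ ^ p := by
    intro x
    have h1 : ‖∑' k, c k * g k x‖ₑ ≤ ⨆ k, 2 ^ (k + 1) * ‖c k * g k x‖ₑ :=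
      enorm_tsum_le_tsum_enorm.trans (Lp.sum_le _)
    refine (ENNReal.rpow_le_rpow h1 hp.le).trans ((Lp.rpow_iSup hp _).trans ?_)
    refine ENNReal.tsum_le_tsum fun k => ?_
    have h2 : (2 : ENNReal) ^ (k + 1) * ‖c k * g k x‖ₑ ≤
        ENNReal.ofReal ((1 / 2) ^ (k + 1)) * ‖g k x‖ₑ := by
      rw [enorm_mul, ← mul_assoc]
      exact mul_le_mul_left (hcoef k) _
    refine (ENNReal.rpow_le_rpow h2 hp.le).trans (le_of_eq ?_)
    rw [ENNReal.mul_rpow_of_nonneg _ _ hp.le,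
      ENNReal.ofReal_rpow_of_nonneg (by positivity) hp.le]
    congr 2
    rw [hq, ← Real.rpow_natCast, ← Real.rpow_natCast, ← Real.rpow_mul (by norm_num),
      ← Real.rpow_mul (by norm_num), mul_comm]
  calc ∫⁻ x : ι → ℝ, ‖∑' k, c k * g k x‖ₑ ^ p
      ≤ ∫⁻ x : ι → ℝ, ∑' k, ENNReal.ofReal (q ^ (k + 1)) * ‖g k x‖ₑ ^ p :=
        lintegral_mono fun x => hpt x
    _ = ∑' k, ∫⁻ x : ι → ℝ, ENNReal.ofReal (q ^ (k + 1)) * ‖g k x‖ₑ ^ p := by
        refine lintegral_tsum fun k => ?_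
        exact (((hg k).enorm.pow_const p).const_mul _).aemeasurable
    _ = ∑' k, ENNReal.ofReal (q ^ (k + 1)) * ∫⁻ x : ι → ℝ, ‖g k x‖ₑ ^ p := by
        refine tsum_congr fun k => ?_
        exact lintegral_const_mul _ ((hg k).enorm.pow_const p)
    _ ≤ ∑' k, ENNReal.ofReal (q ^ (k + 1)) * ENNReal.ofReal A :=
        ENNReal.tsum_le_tsum fun k => mul_le_mul_right (hA k) _
    _ = ENNReal.ofReal (A * ∑' k : ℕ, ((1 / 2 : ℝ) ^ p) ^ (k + 1)) := by
        rw [← hq, ENNReal.tsum_mul_right, ENNReal.ofReal_mul' (tsum_nonneg fun k => by positivity),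
          ENNReal.ofReal_tsum_of_nonneg (fun k => by positivity), mul_comm]
        exact ((summable_geometric_of_lt_one hq0 hq1).mul_left q).congr fun k => by
          rw [pow_succ, mul_comm]

end Pool.Agent.Y263.HT
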