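import Pool.Agent.Y263.HT.Stm

set_option autoImplicit false

/-! # The cone of positive definite matrices (MP_730078_an, project HT) -/

namespace Pool.Agent.Y263.HT

namespace PdcAux

open Matrix

variable {r : ℕ}

theorem sm_off (y : Fin 3 ⊕ Off r → ℝ) (p : Off r) :
    symMat r y p.1.1 p.1.2 = y (Sum.inr p) := by
  have h1 : min p.1.1 p.1.2 = p.1.1 := min_eq_left p.2.1
  have h2 : max p.1.1 p.1.2 = p.1.2 := max_eq_right p.2.1
  unfold symMat
  rw [Matrix.of_apply, dif_pos (by rw [h2]; exact p.2.2)]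
  congr 2
  exact Subtype.ext (Prod.ext h1 h2)

theorem sm_symm (y : Fin 3 ⊕ Off r → ℝ) (i j : Fin (r + 2)) :
    symMat r y j i = symMat r y i j := by
  unfold symMat
  rw [Matrix.of_apply, Matrix.of_apply]
  by_cases h : 2 ≤ ((max i j : Fin (r + 2)) : ℕ)
  · rw [dif_pos h, dif_pos (by rw [max_comm]; exact h)]
    congr 2
    exact Subtype.ext (Prod.ext (min_comm _ _) (max_comm _ _))
  · rw [dif_neg h, dif_neg (by rw [max_comm]; exact h)]
    by_cases hij : i = j
    · subst hij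
      rfl
    · rw [if_pos hij, if_pos (Ne.symm hij)]

theorem sm_add (y z : Fin 3 ⊕ Off r → ℝ) (i j : Fin (r + 2)) :
    symMat r (y + z) i j = symMat r y i j + symMat r z i j := by
  unfold symMat
  simp only [Matrix.of_apply, Pi.add_apply]
  split_ifs <;> ring

theorem sm_smul (c : ℝ) (y : Fin 3 ⊕ Off r → ℝ) (i j : Fin (r + 2)) :
    symMat r (c • y) i j = c * symMat r y i j := by
  unfold symMat
  simp only [Matrix.of_apply, Pi.smul_apply, smul_eq_mul]
  split_ifs <;> ring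

theorem sm_small (y : Fin 3 ⊕ Off r → ℝ) (i j : Fin (r + 2))
    (h : ((max i j : Fin (r + 2)) : ℕ) < 2) : symMat r y i j =
      if i ≠ j then y (Sum.inl 2)
      else if (i : ℕ) = 0 then y (Sum.inl 0) + y (Sum.inl 1)
      else y (Sum.inl 0) - y (Sum.inl 1) := by
  unfold symMat
  rw [Matrix.of_apply, dif_neg (by omega)]

theorem sm_00 (y : Fin 3 ⊕ Off r → ℝ) : symMat r y 0 0 = y (Sum.inl 0) + y (Sum.inl 1) := by
  rw [sm_small y 0 0 (by simp), if_neg (by simp), if_pos (by simp)]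

theorem sm_11 (y : Fin 3 ⊕ Off r → ℝ) : symMat r y 1 1 = y (Sum.inl 0) - y (Sum.inl 1) := by
  rw [sm_small y 1 1 (by simp), if_neg (by simp), if_neg (by simp)]

theorem sm_01 (y : Fin 3 ⊕ Off r → ℝ) : symMat r y 0 1 = y (Sum.inl 2) := by
  rw [sm_small y 0 1 (by simp), if_pos (by simp)]

theorem sm_10 (y : Fin 3 ⊕ Off r → ℝ) : symMat r y 1 0 = y (Sum.inl 2) := by
  rw [sm_symm, sm_01]

theorem quad (M : Matrix (Fin (r + 2)) (Fin (r + 2)) ℝ) (i j : Fin (r + 2)) (s t : ℝ) :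
    (Pi.single i s + Pi.single j t : Fin (r + 2) → ℝ) ⬝ᵥ
      (M *ᵥ (Pi.single i s + Pi.single j t : Fin (r + 2) → ℝ)) =
      s ^ 2 * M i i + s * t * (M i j + M j i) + t ^ 2 * M j j := by
  rw [Matrix.mulVec_add, add_dotProduct, dotProduct_add, dotProduct_add, single_dotProduct,
    single_dotProduct, single_dotProduct, single_dotProduct, Matrix.mulVec_single,
    Matrix.mulVec_single]
  simp only [Pi.smul_apply, Matrix.col_apply, MulOpposite.smul_eq_mul_unop,
    MulOpposite.unop_op]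
  ring

theorem pos_quad {y : Fin 3 ⊕ Off r → ℝ} (h : (symMat r y).PosDef) (i j : Fin (r + 2)) (s t : ℝ)
    (hne : (Pi.single i s + Pi.single j t : Fin (r + 2) → ℝ) ≠ 0) :
    0 < s ^ 2 * symMat r y i i + 2 * (s * t) * symMat r y i j + t ^ 2 * symMat r y j j := by
  have h1 := (Matrix.posDef_iff_dotProduct_mulVec.mp h).2 hne
  rw [star_trivial, quad, sm_symm y i j] at h1
  linarith

theorem diag_pos {y : Fin 3 ⊕ Off r → ℝ} (h : (symMat r y).PosDef) (i : Fin (r + 2)) :
    0 < symMat r y i i := by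
  have h1 := pos_quad h i i 1 0 (by
    intro h0
    have := congrFun h0 i
    simp at this)
  linarith

theorem off_pos {y : Fin 3 ⊕ Off r → ℝ} (h : (symMat r y).PosDef) {i j : Fin (r + 2)}
    (hij : i ≠ j) {s t : ℝ} (hs : t ≠ 0) :
    0 < s ^ 2 * symMat r y i i + 2 * (s * t) * symMat r y i j + t ^ 2 * symMat r y j j := by
  refine pos_quad h i j s t ?_
  intro h0
  have := congrFun h0 j
  rw [Pi.add_apply, Pi.single_eq_of_ne hij.symm, Pi.single_eq_same, zero_add] at this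
  exact hs this

theorem proj {y : Fin 3 ⊕ Off r → ℝ} (h : (symMat r y).PosDef) :
    (fun k => y (Sum.inl k)) ∈ lightCone 0 := by
  have h0 := diag_pos h 0
  have h1 := diag_pos h 1
  have h01 : (0 : Fin (r + 2)) ≠ 1 := by simp
  have h2 := off_pos h h01 (s := - symMat r y 0 1) (t := symMat r y 0 0) h0.ne'
  rw [sm_00] at h0
  rw [sm_11] at h1
  rw [sm_00, sm_11, sm_01] at h2
  refine ⟨?_, ?_⟩
  · show 0 < y (Sum.inl 0)
    linarith
  · show 0 < y (Sum.inl 0) ^ 2 - ∑ j : Fin 2, y (Sum.inl j.succ) ^ 2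
    rw [Fin.sum_univ_two]
    show 0 < y (Sum.inl 0) ^ 2 - (y (Sum.inl 1) ^ 2 + y (Sum.inl 2) ^ 2)
    by_contra hn
    push Not at hn
    have h3 : (y (Sum.inl 0) + y (Sum.inl 1)) *
        (y (Sum.inl 0) ^ 2 - (y (Sum.inl 1) ^ 2 + y (Sum.inl 2) ^ 2)) ≤ 0 :=
      mul_nonpos_of_nonneg_of_nonpos h0.le hn
    nlinarith

/-- the lifted point -/
noncomputable def lft (r : ℕ) (c : ℝ) (y₁ : Fin 3 → ℝ) : Fin 3 ⊕ Off r → ℝ :=
  Sum.elim y₁ (fun p => if p.1.1 = p.1.2 then c else 0)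

theorem lft_big (c : ℝ) (y₁ : Fin 3 → ℝ) {i j : Fin (r + 2)} (hij : i ≤ j) (h : 2 ≤ (j : ℕ)) :
    symMat r (lft r c y₁) i j = if i = j then c else 0 := by
  have := sm_off (lft r c y₁) (⟨(i, j), hij, h⟩ : Off r)
  exact this

theorem lift_pos {c : ℝ} (hc : 0 < c) {y₁ : Fin 3 → ℝ} (h : y₁ ∈ lightCone 0) :
    (symMat r (lft r c y₁)).PosDef := by
  obtain ⟨h0, h1⟩ := h
  have h1' : 0 < y₁ 0 ^ 2 - (y₁ 1 ^ 2 + y₁ 2 ^ 2) := by
    have e : ∑ j : Fin (0 + 2), y₁ j.succ ^ 2 = y₁ 1 ^ 2 + y₁ 2 ^ 2 := by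
      rw [Fin.sum_univ_two]
      rfl
    rw [e] at h1
    exact h1
  rw [Matrix.posDef_iff_dotProduct_mulVec]
  refine ⟨?_, ?_⟩
  · ext i j
    rw [Matrix.conjTranspose_apply, star_trivial]
    exact sm_symm _ _ _
  · intro x hx
    rw [star_trivial]
    have hbig : ∀ (i : Fin (r + 2)) (k : Fin r), (i : ℕ) < 2 →
        symMat r (lft r c y₁) i k.succ.succ = 0 := by
      intro i k hi
      have hle : i ≤ k.succ.succ := by
        rw [Fin.le_def, Fin.val_succ, Fin.val_succ]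
        omega
      rw [lft_big c y₁ hle (by rw [Fin.val_succ, Fin.val_succ]; omega), if_neg]
      intro h
      rw [h, Fin.val_succ, Fin.val_succ] at hi
      omega
    have hkl : ∀ k l : Fin r, symMat r (lft r c y₁) k.succ.succ l.succ.succ =
        if k = l then c else 0 := by
      intro k l
      rcases le_total k l with hkl | hkl
      · have hle : k.succ.succ ≤ l.succ.succ := by
          rw [Fin.succ_le_succ_iff, Fin.succ_le_succ_iff]
          exact hkl
        rw [lft_big c y₁ hle (by rw [Fin.val_succ, Fin.val_succ]; omega)]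
        simp only [Fin.succ_inj]
      · have hle : l.succ.succ ≤ k.succ.succ := by
          rw [Fin.succ_le_succ_iff, Fin.succ_le_succ_iff]
          exact hkl
        rw [sm_symm, lft_big c y₁ hle (by rw [Fin.val_succ, Fin.val_succ]; omega)]
        simp only [Fin.succ_inj]
        simp only [eq_comm]
    have key : x ⬝ᵥ (symMat r (lft r c y₁) *ᵥ x) =
        (y₁ 0 + y₁ 1) * x 0 ^ 2 + 2 * y₁ 2 * (x 0 * x 1) + (y₁ 0 - y₁ 1) * x 1 ^ 2 +
          c * ∑ k : Fin r, x k.succ.succ ^ 2 := by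
      have hrow : ∀ i, (symMat r (lft r c y₁) *ᵥ x) i =
          symMat r (lft r c y₁) i 0 * x 0 + (symMat r (lft r c y₁) i 1 * x 1 +
            ∑ k : Fin r, symMat r (lft r c y₁) i k.succ.succ * x k.succ.succ) := by
        intro i
        show ∑ j, symMat r (lft r c y₁) i j * x j = _
        rw [Fin.sum_univ_succ, Fin.sum_univ_succ]
        rfl
      have hsum : x ⬝ᵥ (symMat r (lft r c y₁) *ᵥ x) =
          x 0 * (symMat r (lft r c y₁) *ᵥ x) 0 + (x 1 * (symMat r (lft r c y₁) *ᵥ x) 1 +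
            ∑ k : Fin r, x k.succ.succ * (symMat r (lft r c y₁) *ᵥ x) k.succ.succ) := by
        show ∑ j, x j * (symMat r (lft r c y₁) *ᵥ x) j = _
        rw [Fin.sum_univ_succ, Fin.sum_univ_succ]
        rfl
      have r0 : (symMat r (lft r c y₁) *ᵥ x) 0 = (y₁ 0 + y₁ 1) * x 0 + y₁ 2 * x 1 := by
        rw [hrow, sm_00, sm_01, Finset.sum_eq_zero]
        · show (y₁ 0 + y₁ 1) * x 0 + (y₁ 2 * x 1 + 0) = _
          ring
        · intro k _
          rw [hbig 0 k (by simp), zero_mul]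
      have r1 : (symMat r (lft r c y₁) *ᵥ x) 1 = y₁ 2 * x 0 + (y₁ 0 - y₁ 1) * x 1 := by
        rw [hrow, sm_10, sm_11, Finset.sum_eq_zero]
        · show y₁ 2 * x 0 + ((y₁ 0 - y₁ 1) * x 1 + 0) = _
          ring
        · intro k _
          rw [hbig 1 k (by simp), zero_mul]
      have rk : ∀ k : Fin r, (symMat r (lft r c y₁) *ᵥ x) k.succ.succ = c * x k.succ.succ := by
        intro k
        rw [hrow, sm_symm _ 0, sm_symm _ 1, hbig 0 k (by simp), hbig 1 k (by simp),
          Finset.sum_eq_single k]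
        · rw [hkl, if_pos rfl]
          ring
        · intro l _ hl
          rw [hkl, if_neg (Ne.symm hl), zero_mul]
        · intro hn
          exact absurd (Finset.mem_univ k) hn
      rw [hsum, r0, r1]
      have e : ∑ k : Fin r, x k.succ.succ * (symMat r (lft r c y₁) *ᵥ x) k.succ.succ =
          c * ∑ k : Fin r, x k.succ.succ ^ 2 := by
        rw [Finset.mul_sum]
        refine Finset.sum_congr rfl fun k _ => ?_
        rw [rk]
        ring
      rw [e]
      ring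
    rw [key]
    have hS : 0 ≤ ∑ k : Fin r, x k.succ.succ ^ 2 := Finset.sum_nonneg fun k _ => sq_nonneg _
    have ha : 0 < y₁ 0 + y₁ 1 := by nlinarith [sq_nonneg (y₁ 2)]
    have hQ : (y₁ 0 + y₁ 1) * ((y₁ 0 + y₁ 1) * x 0 ^ 2 + 2 * y₁ 2 * (x 0 * x 1) +
        (y₁ 0 - y₁ 1) * x 1 ^ 2) = ((y₁ 0 + y₁ 1) * x 0 + y₁ 2 * x 1) ^ 2 +
        (y₁ 0 ^ 2 - (y₁ 1 ^ 2 + y₁ 2 ^ 2)) * x 1 ^ 2 := by ring
    have hQ0 : 0 ≤ (y₁ 0 + y₁ 1) * x 0 ^ 2 + 2 * y₁ 2 * (x 0 * x 1) + (y₁ 0 - y₁ 1) * x 1 ^ 2 := by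
      by_contra hn
      push Not at hn
      have h3 := mul_neg_of_pos_of_neg ha hn
      rw [hQ] at h3
      have h4 := sq_nonneg ((y₁ 0 + y₁ 1) * x 0 + y₁ 2 * x 1)
      have h5 := mul_nonneg h1'.le (sq_nonneg (x 1))
      linarith
    by_contra hn
    push Not at hn
    have hcS : 0 ≤ c * ∑ k : Fin r, x k.succ.succ ^ 2 := mul_nonneg hc.le hS
    have hQz : (y₁ 0 + y₁ 1) * x 0 ^ 2 + 2 * y₁ 2 * (x 0 * x 1) + (y₁ 0 - y₁ 1) * x 1 ^ 2 = 0 := by
      linarith
    have hSz : ∑ k : Fin r, x k.succ.succ ^ 2 = 0 := by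
      have : c * ∑ k : Fin r, x k.succ.succ ^ 2 = 0 := by linarith
      rcases mul_eq_zero.1 this with h | h
      · exact absurd h hc.ne'
      · exact h
    rw [hQz, mul_zero] at hQ
    have h4 := sq_nonneg ((y₁ 0 + y₁ 1) * x 0 + y₁ 2 * x 1)
    have h5 := mul_nonneg h1'.le (sq_nonneg (x 1))
    have h6 : (y₁ 0 ^ 2 - (y₁ 1 ^ 2 + y₁ 2 ^ 2)) * x 1 ^ 2 = 0 := by linarith
    have h7 : ((y₁ 0 + y₁ 1) * x 0 + y₁ 2 * x 1) ^ 2 = 0 := by linarith
    have x1 : x 1 = 0 := by
      rcases mul_eq_zero.1 h6 with h | h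
      · exact absurd h h1'.ne'
      · exact pow_eq_zero_iff (two_ne_zero) |>.1 h
    have x0 : x 0 = 0 := by
      have h8 := pow_eq_zero_iff (two_ne_zero) |>.1 h7
      rw [x1, mul_zero, add_zero] at h8
      rcases mul_eq_zero.1 h8 with h | h
      · exact absurd h ha.ne'
      · exact h
    have xk : ∀ k : Fin r, x k.succ.succ = 0 := by
      intro k
      have h9 := (Finset.sum_eq_zero_iff_of_nonneg (fun k _ => sq_nonneg (x k.succ.succ))).1 hSz k
        (Finset.mem_univ k)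
      exact pow_eq_zero_iff (two_ne_zero) |>.1 h9
    apply hx
    funext i
    refine Fin.cases x0 (fun i => ?_) i
    refine Fin.cases x1 (fun i => ?_) i
    exact xk i

/-- the functionals -/
noncomputable def fn (r : ℕ) : (Fin 3 ⊕ Off r → ℝ) →ₗ[ℝ] (Off r → ℝ) where
  toFun y := fun p => if p.1.1 = p.1.2 then symMat r y p.1.2 p.1.2 else
    symMat r y p.1.1 p.1.1 + symMat r y p.1.2 p.1.2 + 2 * symMat r y p.1.1 p.1.2
  map_add' y z := by
    funext p
    simp only [sm_add, Pi.add_apply]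
    split_ifs <;> ring
  map_smul' c y := by
    funext p
    simp only [sm_smul, Pi.smul_apply, smul_eq_mul, RingHom.id_apply]
    split_ifs <;> ring

theorem fn_apply (y : Fin 3 ⊕ Off r → ℝ) (p : Off r) : fn r y p =
    if p.1.1 = p.1.2 then symMat r y p.1.2 p.1.2 else
    symMat r y p.1.1 p.1.1 + symMat r y p.1.2 p.1.2 + 2 * symMat r y p.1.1 p.1.2 := rfl

end PdcAux

open PdcAux in
theorem t_PDC : PDC := by
  intro r
  refine ⟨fun y hy => proj hy, ?_, fn r, ?_, ?_⟩
  · intro δ hδ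
    refine ⟨δ, hδ, fun y₁ h₁ hn => ⟨lft r (δ / 2) y₁, lift_pos (by linarith) h₁, ?_, rfl⟩⟩
    rw [pi_norm_lt_iff hδ]
    intro i
    rcases i with i | p
    · exact lt_of_le_of_lt (norm_le_pi_norm y₁ i) hn
    · show ‖(if p.1.1 = p.1.2 then δ / 2 else (0 : ℝ))‖ < δ
      split_ifs
      · rw [Real.norm_eq_abs, abs_of_pos (by linarith)]
        linarith
      · rw [norm_zero]
        exact hδ
  · intro y hy p
    rw [fn_apply]
    split_ifs with h
    · exact (diag_pos hy _).le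
    · have := off_pos hy h (s := 1) (t := 1) one_ne_zero
      linarith
  · intro v hv
    have hdiag : ∀ i : Fin (r + 2), symMat r (Sum.elim (0 : Fin 3 → ℝ) v) i i = 0 := by
      intro i
      by_cases hi : 2 ≤ (i : ℕ)
      · have h1 := congrFun hv (⟨(i, i), le_rfl, hi⟩ : Off r)
        have h2 := (fn_apply (Sum.elim (0 : Fin 3 → ℝ) v) (⟨(i, i), le_rfl, hi⟩ : Off r)).symm.trans h1
        exact (if_pos rfl).symm.trans h2
      · rw [sm_small _ i i (by rw [max_self]; omega), if_neg (by simp)]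
        split_ifs <;> simp
    funext p
    have h1 := congrFun hv p
    have h2 := sm_off (Sum.elim (0 : Fin 3 → ℝ) v) p
    rw [fn_apply] at h1
    by_cases h : p.1.1 = p.1.2
    · have h3 := hdiag p.1.2
      rw [h] at h2
      rw [h3] at h2
      exact h2.symm
    · rw [if_neg h, hdiag, hdiag, h2] at h1
      have h3 : (0 : ℝ) + 0 + 2 * v p = 0 := h1
      show v p = 0
      linarith

end Pool.Agent.Y263.HT
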