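import Pool.Agent.Y263.HT.Stm

set_option autoImplicit false

/-! Resampling one coordinate of an infinite product (helper475). -/

namespace Pool.Agent.Y263.HT

open MeasureTheory Set

theorem t_PIN : PIN := by
  intro μ _ N hN k hk
  classical
  let P : Measure (ℕ → ℝ) := Measure.infinitePi (fun _ : ℕ => μ)
  let T : (ℕ → ℝ) × ℝ → (ℕ → ℝ) := fun p => Function.update p.1 k p.2
  have hT : Measurable T := by
    refine measurable_pi_lambda _ fun i => ?_
    by_cases hi : i = k
    · subst hi
      simp only [T, Function.update_self]
      exact measurable_snd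
    · simp only [T, Function.update_of_ne hi]
      exact (measurable_pi_apply i).comp measurable_fst
  have hmap : (P.prod μ).map T = P := by
    apply Measure.eq_infinitePi
    intro s t ht
    rw [Measure.map_apply hT (MeasurableSet.pi s.countable_toSet (fun i _ => ht i))]
    have hpre : T ⁻¹' (Set.pi (s : Set ℕ) t) =
        (Set.pi ((s.erase k : Finset ℕ) : Set ℕ) t) ×ˢ (if k ∈ s then t k else univ) := by
      ext ⟨ω, x⟩
      simp only [T, mem_preimage, Set.mem_pi, Finset.mem_coe, mem_prod, Finset.mem_erase]
      constructor
      · intro h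
        refine ⟨fun i hi => ?_, ?_⟩
        · have := h i hi.2
          rwa [Function.update_of_ne hi.1] at this
        · split_ifs with hks
          · have := h k hks
            rwa [Function.update_self] at this
          · trivial
      · rintro ⟨h1, h2⟩ i hi
        by_cases hik : i = k
        · subst hik
          rw [Function.update_self]
          rwa [if_pos hi] at h2
        · rw [Function.update_of_ne hik]
          exact h1 i ⟨hik, hi⟩
    rw [hpre, Measure.prod_prod]
    have h1 : P (Set.pi ((s.erase k : Finset ℕ) : Set ℕ) t) = ∏ i ∈ s.erase k, μ (t i) :=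
      Measure.infinitePi_pi _ (fun i _ => ht i)
    rw [h1]
    by_cases hks : k ∈ s
    · rw [if_pos hks, Finset.prod_erase_mul _ _ hks]
    · rw [if_neg hks, measure_univ, mul_one, Finset.erase_eq_of_notMem hks]
  show P N = 0
  rw [← hmap, Measure.map_apply hT hN, Measure.prod_apply (hT hN)]
  have h2 : ∀ ω : ℕ → ℝ, μ (Prod.mk ω ⁻¹' (T ⁻¹' N)) = 0 := fun ω => hk ω
  simp only [h2, lintegral_zero]

end Pool.Agent.Y263.HT
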