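import Pool.Agent.Y263.HT.Stm2

set_option autoImplicit false

/-! Products of regular cones (MP_730078_an, project HT). -/

namespace Pool.Agent.Y263.HT

open MeasureTheory Filter Topology

theorem t_PRD : PRD := by
  intro κ lam _ _ Γ₁ Γ₂ h₁ h₂ h0
  obtain ⟨ho₁, hc₁, hk₁, hn₁, hl₁⟩ := h₁
  obtain ⟨ho₂, hc₂, hk₂, hn₂, hl₂⟩ := h₂
  refine ⟨⟨?_, ?_, ?_, ?_, ?_⟩, ?_, ?_⟩
  · -- open
    have e1 : Continuous (fun y : κ ⊕ lam → ℝ => (fun k : κ => y (Sum.inl k))) := by fun_prop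
    have e2 : Continuous (fun y : κ ⊕ lam → ℝ => (fun k : lam => y (Sum.inr k))) := by fun_prop
    exact (ho₁.preimage e1).inter (ho₂.preimage e2)
  · -- convex
    intro y hy z hz a b ha hb hab
    exact ⟨hc₁ hy.1 hz.1 ha hb hab, hc₂ hy.2 hz.2 ha hb hab⟩
  · intro y hy t ht
    exact ⟨hk₁ _ hy.1 t ht, hk₂ _ hy.2 t ht⟩
  · obtain ⟨u, hu⟩ := hn₁
    obtain ⟨w, hw⟩ := hn₂
    exact ⟨Sum.elim u w, hu, hw⟩
  · rintro ⟨a, v, hv, hline⟩
    by_cases hvl : (fun k : κ => v (Sum.inl k)) = 0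
    · by_cases hvr : (fun k : lam => v (Sum.inr k)) = 0
      · apply hv
        funext j
        rcases j with k | k
        · exact congrFun hvl k
        · exact congrFun hvr k
      · exact hl₂ ⟨fun k => a (Sum.inr k), fun k => v (Sum.inr k), hvr, fun t => (hline t).2⟩
    · exact hl₁ ⟨fun k => a (Sum.inl k), fun k => v (Sum.inl k), hvl, fun t => (hline t).1⟩
  · intro y hy
    exact hy.1
  · obtain ⟨w, hw⟩ := hn₂
    refine ⟨1 + ‖w‖, fun y₁ hy₁ => ?_⟩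
    have hne : y₁ ≠ 0 := fun h => h0 (h ▸ hy₁)
    have hpos : 0 < ‖y₁‖ := norm_pos_iff.2 hne
    refine ⟨Sum.elim y₁ (‖y₁‖ • w), ⟨hy₁, hk₂ w hw _ hpos⟩, rfl, ?_⟩
    have hw0 : 0 ≤ ‖w‖ := norm_nonneg w
    rw [pi_norm_le_iff_of_nonneg (by positivity)]
    intro j
    rcases j with k | k
    · have := norm_le_pi_norm y₁ k
      simp only [Sum.elim_inl]
      nlinarith [mul_nonneg hw0 hpos.le]
    · have := norm_le_pi_norm w k
      simp only [Sum.elim_inr, Pi.smul_apply, smul_eq_mul, norm_mul, norm_norm]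
      nlinarith [mul_nonneg hpos.le (sub_nonneg.2 this)]

end Pool.Agent.Y263.HT
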