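import Pool.Agent.Y263.HT.Cor

set_option autoImplicit false

/-! Project HT: almost all perturbations diverge. -/

namespace Pool.Agent.Y263.HT

open MeasureTheory Filter Topology

theorem rpow_add_le (a b : ENNReal) (p : ℝ) (hp : 0 < p) :
    (a + b) ^ p ≤ 2 ^ p * (a ^ p + b ^ p) := by
  have h1 : a + b ≤ 2 * max a b := by
    rw [two_mul]
    exact add_le_add (le_max_left _ _) (le_max_right _ _)
  calc (a + b) ^ p ≤ (2 * max a b) ^ p := ENNReal.rpow_le_rpow h1 hp.le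
    _ = 2 ^ p * (max a b) ^ p := ENNReal.mul_rpow_of_nonneg _ _ hp.le
    _ ≤ 2 ^ p * (a ^ p + b ^ p) := by
        gcongr
        rcases le_total a b with h | h
        · rw [max_eq_right h]; exact le_add_self
        · rw [max_eq_left h]; exact le_self_add

theorem hardy_add {ι : Type} [Fintype ι] {Γ : Set (ι → ℝ)} {p : ℝ} (hp : 0 < p)
    {F G : (ι → ℂ) → ℂ} (hF : InHardy Γ p F) (hG : InHardy Γ p G) (c : ℂ) :
    InHardy Γ p (fun z => F z + c * G z) := by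
  obtain ⟨hFd, A, hA⟩ := hF
  obtain ⟨hGd, B, hB⟩ := hG
  refine ⟨hFd.add (hGd.const_mul c), ?_⟩
  set T : ENNReal := 2 ^ p * (ENNReal.ofReal A + ‖c‖ₑ ^ p * ENNReal.ofReal B) with hT
  have hTfin : T ≠ ⊤ := by
    refine ENNReal.mul_ne_top (ENNReal.rpow_ne_top_of_nonneg hp.le (by simp)) ?_
    refine ENNReal.add_ne_top.2 ⟨ENNReal.ofReal_ne_top, ?_⟩
    exact ENNReal.mul_ne_top (ENNReal.rpow_ne_top_of_nonneg hp.le enorm_ne_top)
      ENNReal.ofReal_ne_top
  refine ⟨T.toReal, fun y hy => ?_⟩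
  rw [ENNReal.ofReal_toReal hTfin]
  have h1 : ∀ x : ι → ℝ, ‖F (pt x y) + c * G (pt x y)‖ₑ ^ p ≤
      2 ^ p * (‖F (pt x y)‖ₑ ^ p + ‖c‖ₑ ^ p * ‖G (pt x y)‖ₑ ^ p) := by
    intro x
    refine (ENNReal.rpow_le_rpow (enorm_add_le _ _) hp.le).trans ?_
    refine (rpow_add_le _ _ p hp).trans ?_
    rw [enorm_mul, ENNReal.mul_rpow_of_nonneg _ _ hp.le]
  have hm : Measurable fun x : ι → ℝ => ‖F (pt x y)‖ₑ ^ p := by
    have : Continuous fun x : ι → ℝ => F (pt x y) := by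
      rw [← continuousOn_univ]
      refine hFd.continuousOn.comp
        (pt_cont.comp (Continuous.prodMk_left y)).continuousOn fun x _ => ?_
      change (fun k => (pt x y k).im) ∈ Γ
      rw [pt_im]; exact hy
    exact this.measurable.enorm.pow_const p
  calc ∫⁻ x : ι → ℝ, ‖F (pt x y) + c * G (pt x y)‖ₑ ^ p
      ≤ ∫⁻ x : ι → ℝ, 2 ^ p * (‖F (pt x y)‖ₑ ^ p + ‖c‖ₑ ^ p * ‖G (pt x y)‖ₑ ^ p) :=
        lintegral_mono h1
    _ = 2 ^ p * ((∫⁻ x : ι → ℝ, ‖F (pt x y)‖ₑ ^ p) +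
          ‖c‖ₑ ^ p * ∫⁻ x : ι → ℝ, ‖G (pt x y)‖ₑ ^ p) := by
        rw [lintegral_const_mul' _ _ (ENNReal.rpow_ne_top_of_nonneg hp.le (by simp)),
          lintegral_add_left hm,
          lintegral_const_mul' _ _ (ENNReal.rpow_ne_top_of_nonneg hp.le enorm_ne_top)]
    _ ≤ T := by
        rw [hT]
        gcongr
        · exact hA y hy
        · exact hB y hy

theorem prevalent {ι : Type} [Fintype ι] (Γ : Set (ι → ℝ)) (hΓ : IsOpen Γ)
    {F G : (ι → ℂ) → ℂ} (hFd : DifferentiableOn ℂ F {z | (fun k => (z k).im) ∈ Γ})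
    (hGd : DifferentiableOn ℂ G {z | (fun k => (z k).im) ∈ Γ})
    (hu : ∀ᵐ x : ι → ℝ, UnboundedAt Γ G x) :
    ∀ᵐ c : ℝ, ∀ᵐ x : ι → ℝ, UnboundedAt Γ (fun z => F z + (c : ℂ) * G z) x := by
  obtain ⟨D, hDc, hDd⟩ := TopologicalSpace.exists_countable_dense (ι → ℝ)
  have mem_tube : ∀ (x y : ι → ℝ), y ∈ Γ → pt x y ∈ {z : ι → ℂ | (fun k => (z k).im) ∈ Γ} := by
    intro x y hy
    change (fun k => (pt x y k).im) ∈ Γ
    rw [pt_im]; exact hy
  have cont_x : ∀ f : (ι → ℂ) → ℂ, ContinuousOn f {z : ι → ℂ | (fun k => (z k).im) ∈ Γ} →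
      ∀ y ∈ Γ, Continuous fun x : ι → ℝ => f (pt x y) := by
    intro f hf y hy
    rw [← continuousOn_univ]
    refine hf.comp ?_ fun x _ => mem_tube x y hy
    exact (pt_cont.comp (Continuous.prodMk_left y)).continuousOn
  have hBm := BD_meas (D := D) (Γ := Γ) hDc (F := fun (c : ℝ) z => F z + (c : ℂ) * G z) (by
    intro y hy
    refine Measurable.add ((cont_x F hFd.continuousOn y hy).measurable.comp measurable_snd) ?_
    exact (Complex.measurable_ofReal.comp measurable_fst).mul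
      ((cont_x G hGd.continuousOn y hy).measurable.comp measurable_snd))
  have hae : ∀ᵐ x : ι → ℝ, ∀ᵐ c : ℝ, ¬ BD D Γ (fun z => F z + (c : ℂ) * G z) x := by
    filter_upwards [hu] with x hx
    rw [ae_iff]
    refine Set.Subsingleton.measure_zero ?_ _
    intro s hs s' hs'
    by_contra hne
    simp only [not_not, Set.mem_ofPred_eq] at hs hs'
    obtain ⟨M, hM⟩ := hs
    obtain ⟨M', hM'⟩ := hs'
    have hpos : 0 < |s - s'| := abs_pos.2 (sub_ne_zero.2 hne)
    obtain ⟨N, hN⟩ := exists_nat_gt (((M : ℝ) + M') / |s - s'|)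
    refine not_BD_of_unb hDd hΓ hGd.continuousOn hx ⟨max N (max M M'), fun y hyD hyΓ hy => ?_⟩
    have hle : ∀ m : ℕ, m ≤ max N (max M M') → ‖y‖ < 1 / ((m : ℝ) + 1) := by
      intro m hm
      refine lt_of_lt_of_le hy ?_
      have : (m : ℝ) ≤ ((max N (max M M') : ℕ) : ℝ) := by exact_mod_cast hm
      exact one_div_le_one_div_of_le (by positivity) (by linarith)
    have e1 := hM y hyD hyΓ (hle M (by omega))
    have e2 := hM' y hyD hyΓ (hle M' (by omega))
    have h3 : |s - s'| * ‖G (pt x y)‖ ≤ M + M' := by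
      have h4 : (F (pt x y) + (s : ℂ) * G (pt x y)) - (F (pt x y) + (s' : ℂ) * G (pt x y)) =
          ((s - s' : ℝ) : ℂ) * G (pt x y) := by push_cast; ring
      have h5 := (norm_sub_le (F (pt x y) + (s : ℂ) * G (pt x y))
        (F (pt x y) + (s' : ℂ) * G (pt x y))).trans (add_le_add e1 e2)
      rw [h4, norm_mul, Complex.norm_real, Real.norm_eq_abs] at h5
      exact h5
    have hfin : ‖G (pt x y)‖ ≤ ((M : ℝ) + M') / |s - s'| := by
      rw [le_div_iff₀ hpos]; linarith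
    have h6 : (N : ℝ) ≤ ((max N (max M M') : ℕ) : ℝ) := by exact_mod_cast le_max_left _ _
    linarith
  have hae2 : ∀ᵐ c : ℝ, ∀ᵐ x : ι → ℝ, ¬ BD D Γ (fun z => F z + (c : ℂ) * G z) x := by
    rw [Measure.ae_ae_comm] at hae
    · exact hae
    · have h5 : {r : (ι → ℝ) × ℝ | ¬ BD D Γ (fun z => F z + (r.2 : ℂ) * G z) r.1} =
          (Prod.swap ⁻¹' {r : ℝ × (ι → ℝ) | BD D Γ (fun z => F z + (r.1 : ℂ) * G z) r.2})ᶜ := by
        ext r; simp
      rw [h5]
      exact (measurable_swap hBm).compl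
  filter_upwards [hae2] with c hc
  filter_upwards [hc] with x hx
  exact unb_of_not_BD hx

end Pool.Agent.Y263.HT
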