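import Pool.Agent.Y263.HT.Stm2

set_option autoImplicit false

/-!
# A surjective linear map is a coordinate projection
-/

namespace Pool.Agent.Y263.HT

open MeasureTheory Filter Topology

theorem t_SPL : SPL := by
  intro ι κ _ _ π hπ
  obtain ⟨s, hs⟩ := LinearMap.exists_rightInverse_of_surjective π (LinearMap.range_eq_top.mpr hπ)
  have hs' : ∀ a, π (s a) = a := fun a => LinearMap.congr_fun hs a
  let e₁ : (ι → ℝ) ≃ₗ[ℝ] (κ → ℝ) × LinearMap.ker π :=
    { toFun := fun y => (π y, ⟨y - s (π y), by
        rw [LinearMap.mem_ker, map_sub, hs', sub_self]⟩)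
      map_add' := fun y z => by
        refine Prod.ext (map_add π y z) (Subtype.ext ?_)
        change y + z - s (π (y + z)) = (y - s (π y)) + (z - s (π z))
        rw [map_add, map_add]
        abel
      map_smul' := fun c y => by
        refine Prod.ext (map_smul π c y) (Subtype.ext ?_)
        change c • y - s (π (c • y)) = c • (y - s (π y))
        rw [map_smul, map_smul, smul_sub]
      invFun := fun q => s q.1 + q.2.1
      left_inv := fun y => by
        change s (π y) + (y - s (π y)) = y
        abel
      right_inv := fun q => by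
        have h1 : π (s q.1 + q.2.1) = q.1 := by
          rw [map_add, hs', LinearMap.mem_ker.1 q.2.2, add_zero]
        refine Prod.ext h1 (Subtype.ext ?_)
        change s q.1 + q.2.1 - s (π (s q.1 + q.2.1)) = q.2.1
        rw [h1]
        abel }
  let e₂ : LinearMap.ker π ≃ₗ[ℝ] (Fin (Module.finrank ℝ (LinearMap.ker π)) → ℝ) :=
    (Module.finBasis ℝ (LinearMap.ker π)).equivFun
  exact ⟨_, (e₁.trans (LinearEquiv.prodCongr (LinearEquiv.refl ℝ _) e₂)).trans
    (LinearEquiv.sumArrowLequivProdArrow _ _ ℝ ℝ).symm, fun y j => rfl⟩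

end Pool.Agent.Y263.HT
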