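import Pool.Agent.Y263.HT.Stm

set_option autoImplicit false

namespace Pool.Agent.Y263.HT

open MeasureTheory Filter Topology

theorem t_STE : STE := by
  intro ι _ E hE h0
  refine ⟨TopologicalSpace.denseSeq (ι → ℝ), ?_⟩
  set A : Set (ι → ℝ) := {x | ¬ ∃ k, x - TopologicalSpace.denseSeq (ι → ℝ) k ∈ E} with hAdef
  have hA : MeasurableSet A := by
    have : A = (⋃ k, (fun x : ι → ℝ => x - TopologicalSpace.denseSeq (ι → ℝ) k) ⁻¹' E)ᶜ := by
      ext x
      simp [hAdef]
    rw [this]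
    exact (MeasurableSet.iUnion fun k => (measurable_id.sub_const _) hE).compl
  rw [ae_iff]
  change volume A = 0
  by_contra hA0
  obtain ⟨v, hv⟩ : ∃ v : ι → ℝ, volume (A ∩ {x | x - v ∈ E}) ≠ 0 := by
    by_contra hcon
    push Not at hcon
    have hS : MeasurableSet {p : (ι → ℝ) × (ι → ℝ) | p.1 ∈ A ∧ p.1 - p.2 ∈ E} :=
      (measurable_fst hA).inter ((measurable_fst.sub measurable_snd) hE)
    have h1 : ((volume : Measure (ι → ℝ)).prod (volume : Measure (ι → ℝ)))
        {p : (ι → ℝ) × (ι → ℝ) | p.1 ∈ A ∧ p.1 - p.2 ∈ E} = 0 := by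
      rw [Measure.prod_apply_symm hS]
      have : ∀ y : ι → ℝ, volume ((fun x => (x, y)) ⁻¹'
          {p : (ι → ℝ) × (ι → ℝ) | p.1 ∈ A ∧ p.1 - p.2 ∈ E}) = 0 := fun y => hcon y
      rw [lintegral_congr this, lintegral_zero]
    rw [Measure.measure_prod_null hS] at h1
    have h2 : ∀ᵐ x : ι → ℝ, ¬ (x ∈ A) := by
      filter_upwards [h1] with x hx hxA
      apply h0
      have h3 : volume ((fun y : ι → ℝ => x - y) ⁻¹' E) = 0 := by
        refine measure_mono_null (fun y hy => ?_) hx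
        exact ⟨hxA, hy⟩
      have h4 : volume ((fun y : ι → ℝ => x - y) ⁻¹' E) = volume E :=
        (Measure.measurePreserving_sub_left (volume : Measure (ι → ℝ)) x).measure_preimage
          hE.nullMeasurableSet
      rwa [h4] at h3
    rw [ae_iff] at h2
    exact hA0 (by simpa using h2)
  have hFm : MeasurableSet (A ∩ {x : ι → ℝ | x - v ∈ E}) :=
    hA.inter ((measurable_id.sub_const _) hE)
  have hF := Measure.sub_mem_nhds_zero_of_addHaar_pos (volume : Measure (ι → ℝ))
    (A ∩ {x : ι → ℝ | x - v ∈ E}) hFm (pos_iff_ne_zero.2 hv)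
  have hc : Tendsto (fun q : ι → ℝ => q - v) (𝓝 v) (𝓝 0) := by
    have : Tendsto (fun q : ι → ℝ => q - v) (𝓝 v) (𝓝 (v - v)) :=
      (continuous_id.sub continuous_const).tendsto v
    rwa [sub_self] at this
  obtain ⟨q, hq, k, hk⟩ := (mem_closure_iff_nhds.1
    ((TopologicalSpace.denseRange_denseSeq (ι → ℝ)) v)) _ (hc hF)
  obtain ⟨f, hf, f', hf', hff⟩ := Set.mem_sub.1 hq
  apply hf.1
  refine ⟨k, ?_⟩
  have h5 : f - TopologicalSpace.denseSeq (ι → ℝ) k = f' - v := by
    rw [hk]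
    have : q = v + (f - f') := by
      rw [hff]
      exact (add_sub_cancel v q).symm
    rw [this]
    abel
  rw [h5]
  exact hf'.2

end Pool.Agent.Y263.HT
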