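import Pool.Agent.Y263.HT.Defs

set_option autoImplicit false

/-! Statements of the jobs of project HT (MP_730078_an), as `def ... : Prop`. -/

namespace Pool.Agent.Y263.HT

open MeasureTheory Filter Topology

/-- STE (Steinhaus): countably many translates of a set of positive measure cover almost everything. -/
def STE : Prop := ∀ (ι : Type) [Fintype ι] (E : Set (ι → ℝ)), MeasurableSet E → volume E ≠ 0 →
  ∃ q : ℕ → (ι → ℝ), ∀ᵐ x : ι → ℝ, ∃ k, x - q k ∈ E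

/-- PI (resampling one coordinate of an infinite product). -/
def PIN : Prop := ∀ (μ : Measure ℝ) [IsProbabilityMeasure μ] (N : Set (ℕ → ℝ)), MeasurableSet N →
  ∀ k : ℕ, (∀ ω : ℕ → ℝ, μ {s | Function.update ω k s ∈ N} = 0) →
  Measure.infinitePi (fun _ : ℕ => μ) N = 0

/-- DIF: locally normally convergent series of holomorphic functions of several variables. -/
def DIF : Prop := ∀ (ι : Type) [Fintype ι] (U : Set (ι → ℂ)), IsOpen U →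
  ∀ g : ℕ → (ι → ℂ) → ℂ, (∀ k, DifferentiableOn ℂ (g k) U) →
  (∀ z ∈ U, ∃ r > 0, Metric.ball z r ⊆ U ∧ ∃ u : ℕ → ℝ, Summable u ∧
    ∀ k, ∀ w ∈ Metric.ball z r, ‖g k w‖ ≤ u k) →
  DifferentiableOn ℂ (fun z => ∑' k, g k z) U

/-- EPS: small coefficients making any sequence of continuous functions locally summable. -/
def EPS : Prop := ∀ (ι : Type) [Fintype ι] (U : Set (ι → ℂ)), IsOpen U →
  ∀ f : ℕ → (ι → ℂ) → ℂ, (∀ k, ContinuousOn (f k) U) →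
  ∃ ε : ℕ → ℝ, (∀ k, 0 < ε k ∧ ε k ≤ (1 / 4) ^ (k + 1)) ∧
    ∀ z ∈ U, ∃ r > 0, Metric.ball z r ⊆ U ∧ ∃ u : ℕ → ℝ, Summable u ∧
      ∀ k, ∀ w ∈ Metric.ball z r, ε k * ‖f k w‖ ≤ u k

/-- LP: the `L^p` quasi-norm of such series, all `p > 0`. -/
def LP : Prop := ∀ (ι : Type) [Fintype ι] (p A : ℝ), 0 < p →
  ∀ g : ℕ → (ι → ℝ) → ℂ, (∀ k, Measurable (g k)) →
  (∀ k, ∫⁻ x : ι → ℝ, ‖g k x‖ₑ ^ p ≤ ENNReal.ofReal A) →
  ∀ c : ℕ → ℂ, (∀ k, ‖c k‖ ≤ (1 / 4) ^ (k + 1)) →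
  ∫⁻ x : ι → ℝ, ‖∑' k, c k * g k x‖ₑ ^ p ≤
    ENNReal.ofReal (A * ∑' k : ℕ, ((1 / 2 : ℝ) ^ p) ^ (k + 1))

/-- TRB: the weight of TRA is integrable along the fibres, uniformly. -/
def TRB : Prop := ∀ (κ lam : Type) [Fintype κ] [Fintype lam] (l : (κ ⊕ lam → ℝ) →ₗ[ℝ] (lam → ℝ)),
  (∀ v : lam → ℝ, l (Sum.elim (0 : κ → ℝ) v) = 0 → v = 0) →
  ∃ C : ℝ, ∀ x₁ : κ → ℝ, ∫⁻ x₂ : lam → ℝ,
    ∏ j, ENNReal.ofReal ((1 + (l (Sum.elim x₁ x₂) j) ^ 2)⁻¹) ≤ ENNReal.ofReal C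

/-- TRA (transference to cones with a good projection). -/
def TRA : Prop := TRB → ∀ (κ lam : Type) [Fintype κ] [Fintype lam] (Γ₁ : Set (κ → ℝ)) (Γ : Set (κ ⊕ lam → ℝ)),
  (∀ y ∈ Γ, (fun k => y (Sum.inl k)) ∈ Γ₁) →
  (∀ δ > 0, ∃ η > 0, ∀ y₁ ∈ Γ₁, ‖y₁‖ < η → ∃ y ∈ Γ, ‖y‖ < δ ∧ (fun k => y (Sum.inl k)) = y₁) →
  ∀ l : (κ ⊕ lam → ℝ) →ₗ[ℝ] (lam → ℝ), (∀ y ∈ Γ, ∀ j, 0 ≤ l y j) →
  (∀ v : lam → ℝ, l (Sum.elim (0 : κ → ℝ) v) = 0 → v = 0) →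
  ∀ p : ℝ, 0 < p → ∀ G : (κ → ℂ) → ℂ, InHardy Γ₁ p G → (∀ᵐ x : κ → ℝ, UnboundedAt Γ₁ G x) →
  ∃ H : (κ ⊕ lam → ℂ) → ℂ, InHardy Γ p H ∧ ∀ᵐ x : κ ⊕ lam → ℝ, UnboundedAt Γ H x

/-- DUA: a regular cone has `n` linearly independent functionals that are nonnegative on it. -/
def DUA : Prop := ∀ (ι : Type) [Fintype ι] (Γ : Set (ι → ℝ)), IsRegularCone Γ →
  ∃ l : (ι → ℝ) →ₗ[ℝ] (ι → ℝ), (∀ y ∈ Γ, ∀ j, 0 ≤ l y j) ∧ ∀ v : ι → ℝ, l v = 0 → v = 0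

/-- The coordinates of a symmetric matrix of size `r + 2`: the pairs `(i, j)`, `i ≤ j`, other than
the three pairs of the upper left `2 × 2` block. -/
def Off (r : ℕ) : Type := {ij : Fin (r + 2) × Fin (r + 2) // ij.1 ≤ ij.2 ∧ 2 ≤ (ij.2 : ℕ)}

instance (r : ℕ) : Fintype (Off r) := by unfold Off; infer_instance

/-- The symmetric matrix with coordinates `y`: the upper left `2 × 2` block is
`(y₀ + y₁, y₂; y₂, y₀ - y₁)`, the other entries are the coordinates `y (i, j)`. -/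
def symMat (r : ℕ) (y : Fin 3 ⊕ Off r → ℝ) : Matrix (Fin (r + 2)) (Fin (r + 2)) ℝ :=
  Matrix.of fun i j =>
    if h : 2 ≤ ((max i j : Fin (r + 2)) : ℕ) then
      y (Sum.inr ⟨(min i j, max i j), min_le_max, h⟩)
    else if i ≠ j then y (Sum.inl 2)
    else if (i : ℕ) = 0 then y (Sum.inl 0) + y (Sum.inl 1) else y (Sum.inl 0) - y (Sum.inl 1)

/-- PDC: the cone of positive definite symmetric matrices satisfies the hypotheses of TRA over the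
light cone of dimension 3. -/
def PDC : Prop := ∀ r : ℕ,
  (∀ y ∈ {y : Fin 3 ⊕ Off r → ℝ | (symMat r y).PosDef}, (fun k => y (Sum.inl k)) ∈ lightCone 0) ∧
  (∀ δ > (0 : ℝ), ∃ η > (0 : ℝ), ∀ y₁ ∈ lightCone 0, ‖y₁‖ < η →
    ∃ y ∈ {y : Fin 3 ⊕ Off r → ℝ | (symMat r y).PosDef}, ‖y‖ < δ ∧ (fun k => y (Sum.inl k)) = y₁) ∧
  ∃ l : (Fin 3 ⊕ Off r → ℝ) →ₗ[ℝ] (Off r → ℝ),
    (∀ y ∈ {y : Fin 3 ⊕ Off r → ℝ | (symMat r y).PosDef}, ∀ j, 0 ≤ l y j) ∧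
    ∀ v : Off r → ℝ, l (Sum.elim (0 : Fin 3 → ℝ) v) = 0 → v = 0

end Pool.Agent.Y263.HT
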