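import Pool.Agent.Y263.HT.Pdc

set_option autoImplicit false

/-! The cone of positive definite symmetric matrices is open (after helper115's Hermitian case). -/

namespace Pool.Agent.Y263.HT.Syo

open MeasureTheory Filter Topology

variable {r : ℕ}

theorem symMat_symm (y : Fin 3 ⊕ Off r → ℝ) : (symMat r y).IsHermitian := by
  ext i j
  rw [Matrix.conjTranspose_apply, star_trivial]
  exact PdcAux.sm_symm y i j

/-- the quadratic form -/
noncomputable def q (y : Fin 3 ⊕ Off r → ℝ) (x : Fin (r + 2) → ℝ) : ℝ :=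
  star x ⬝ᵥ (Matrix.mulVec (symMat r y) x)

theorem q_scale (y : Fin 3 ⊕ Off r → ℝ) (c : ℝ) (x : Fin (r + 2) → ℝ) :
    q y (c • x) = c ^ 2 * q y x := by
  unfold q
  rw [Matrix.mulVec_smul, dotProduct_smul, star_smul, smul_dotProduct, smul_eq_mul, smul_eq_mul,
    star_trivial]
  ring

theorem pd_iff (y : Fin 3 ⊕ Off r → ℝ) :
    (symMat r y).PosDef ↔ ∀ x : Fin (r + 2) → ℝ, x ≠ 0 → 0 < q y x := by
  rw [Matrix.posDef_iff_dotProduct_mulVec]
  exact ⟨fun h x hx => h.2 hx, fun h => ⟨symMat_symm y, fun x hx => h x hx⟩⟩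

theorem pd_iff' (y : Fin 3 ⊕ Off r → ℝ) :
    (symMat r y).PosDef ↔ ∀ x ∈ Metric.sphere (0 : Fin (r + 2) → ℝ) 1, 0 < q y x := by
  rw [pd_iff]
  constructor
  · intro h x hx
    apply h
    rintro rfl
    simp at hx
  · intro h x hx
    have hn : 0 < ‖x‖ := norm_pos_iff.2 hx
    have h1 : (‖x‖⁻¹ : ℝ) • x ∈ Metric.sphere (0 : Fin (r + 2) → ℝ) 1 := by
      rw [mem_sphere_zero_iff_norm, norm_smul, norm_inv, norm_norm, inv_mul_cancel₀ hn.ne']
    have h2 := h _ h1
    rw [q_scale] at h2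
    have h3 : 0 < (‖x‖⁻¹ : ℝ) ^ 2 := by positivity
    exact (mul_pos_iff_of_pos_left h3).1 h2

theorem q_cont : Continuous fun p : (Fin 3 ⊕ Off r → ℝ) × (Fin (r + 2) → ℝ) => q p.1 p.2 := by
  have hA : Continuous fun y : Fin 3 ⊕ Off r → ℝ => symMat r y := by
    refine continuous_matrix fun j k => ?_
    unfold symMat
    simp only [Matrix.of_apply]
    split_ifs <;> fun_prop
  unfold q
  refine Continuous.dotProduct (continuous_star.comp continuous_snd) ?_
  exact Continuous.matrix_mulVec (hA.comp continuous_fst) continuous_snd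

theorem isOpen_pd (r : ℕ) : IsOpen {y : Fin 3 ⊕ Off r → ℝ | (symMat r y).PosDef} := by
  rw [isOpen_iff_mem_nhds]
  intro y hy
  have h1 : ∀ᶠ z in 𝓝 y, ∀ x ∈ Metric.sphere (0 : Fin (r + 2) → ℝ) 1, 0 < q z x := by
    refine (isCompact_sphere (0 : Fin (r + 2) → ℝ) 1).eventually_forall_of_forall_eventually
      (P := fun z x => 0 < q z x) ?_
    intro x hx
    exact (q_cont.continuousAt (x := (y, x))).eventually_const_lt
      ((pd_iff' y).1 hy x hx)
  filter_upwards [h1] with z hz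
  exact (pd_iff' z).2 hz

end Pool.Agent.Y263.HT.Syo
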