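import Mathlib
import Pool.Agent.Y263.HT.Stm

set_option autoImplicit false

/-! # Transference to cones with a good projection (helper420) -/

namespace Pool.Agent.Y263.HT

open MeasureTheory Filter Topology

namespace TraX

open Complex

variable {κ lam : Type} [Fintype κ] [Fintype lam]

open Classical in
/-- the complexified linear map -/
noncomputable def L (l : (κ ⊕ lam → ℝ) →ₗ[ℝ] (lam → ℝ)) (z : κ ⊕ lam → ℂ) (j : lam) : ℂ :=
  ∑ k, ((l (Pi.single k 1) j : ℝ) : ℂ) * z k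

theorem l_eq (l : (κ ⊕ lam → ℝ) →ₗ[ℝ] (lam → ℝ)) (x : κ ⊕ lam → ℝ) (j : lam) [DecidableEq (κ ⊕ lam)] :
    l x j = ∑ k, l (Pi.single k 1) j * x k := by
  have h1 := LinearMap.pi_apply_eq_sum_univ ((LinearMap.proj j).comp l) x
  change l x j = ∑ i, x i • l (fun k => if i = k then 1 else 0) j at h1
  rw [h1]
  refine Finset.sum_congr rfl fun i _ => ?_
  rw [smul_eq_mul, mul_comm]
  congr 2
  have : (fun k => if i = k then (1:ℝ) else 0) = Pi.single i 1 := by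
    ext k
    by_cases h : i = k
    · subst h; simp
    · simp [h, Ne.symm h]
  rw [this]

theorem L_pt (l : (κ ⊕ lam → ℝ) →ₗ[ℝ] (lam → ℝ)) (x y : κ ⊕ lam → ℝ) (j : lam) :
    L l (pt x y) j = (l x j : ℂ) + (l y j : ℂ) * I := by
  classical
  rw [l_eq l x j, l_eq l y j, L]
  push_cast
  rw [Finset.sum_mul, ← Finset.sum_add_distrib]
  refine Finset.sum_congr rfl fun k _ => ?_
  rw [pt]
  ring

/-- the weight -/
noncomputable def W (l : (κ ⊕ lam → ℝ) →ₗ[ℝ] (lam → ℝ)) (N : ℕ) (z : κ ⊕ lam → ℂ) : ℂ :=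
  ∏ j, ((L l z j + I)⁻¹) ^ N

theorem im_L (l : (κ ⊕ lam → ℝ) →ₗ[ℝ] (lam → ℝ)) (z : κ ⊕ lam → ℂ) (j : lam) :
    (L l z j + I).im = l (fun k => (z k).im) j + 1 := by
  have h1 : z = pt (fun k => (z k).re) (fun k => (z k).im) := by
    ext k
    exact (Complex.re_add_im (z k)).symm
  conv_lhs => rw [h1]
  rw [L_pt]
  simp

theorem W_diff (l : (κ ⊕ lam → ℝ) →ₗ[ℝ] (lam → ℝ)) (N : ℕ) (z : κ ⊕ lam → ℂ)
    (hz : ∀ j, 0 ≤ l (fun k => (z k).im) j) : DifferentiableAt ℂ (W l N) z := by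
  have h1 : ∀ j, DifferentiableAt ℂ (fun z : κ ⊕ lam → ℂ => ((L l z j + I)⁻¹) ^ N) z := by
    intro j
    have h2 : DifferentiableAt ℂ (fun z : κ ⊕ lam → ℂ => L l z j + I) z := by
      unfold L
      fun_prop
    have h3 : L l z j + I ≠ 0 := by
      intro h
      have h4 := im_L l z j
      rw [h, Complex.zero_im] at h4
      have := hz j
      linarith
    exact (h2.inv h3).pow N
  unfold W
  fun_prop

theorem norm_low (l : (κ ⊕ lam → ℝ) →ₗ[ℝ] (lam → ℝ)) (x y : κ ⊕ lam → ℝ) (j : lam)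
    (hy : 0 ≤ l y j) : 1 + (l x j) ^ 2 ≤ ‖L l (pt x y) j + I‖ ^ 2 := by
  have h1 : L l (pt x y) j + I = ((l x j : ℝ) : ℂ) + ((l y j + 1 : ℝ) : ℂ) * I := by
    rw [L_pt]; push_cast; ring
  rw [h1, ← Complex.normSq_eq_norm_sq, Complex.normSq_add_mul_I]
  nlinarith

theorem norm_up (l : (κ ⊕ lam → ℝ) →ₗ[ℝ] (lam → ℝ)) (x y : κ ⊕ lam → ℝ) (j : lam) (B : ℝ)
    (hy : |l y j| ≤ B) : ‖L l (pt x y) j + I‖ ≤ |l x j| + B + 1 := by
  have h1 : L l (pt x y) j + I = ((l x j : ℝ) : ℂ) + (((l y j : ℝ) : ℂ) * I + I) := by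
    rw [L_pt]; ring
  rw [h1]
  refine (norm_add_le _ _).trans ?_
  have h2 : ‖((l y j : ℝ) : ℂ) * I + I‖ ≤ |l y j| + 1 := by
    refine (norm_add_le _ _).trans ?_
    rw [norm_mul, Complex.norm_I, mul_one, Complex.norm_real, Real.norm_eq_abs]
  rw [Complex.norm_real, Real.norm_eq_abs]
  linarith

theorem W_up (l : (κ ⊕ lam → ℝ) →ₗ[ℝ] (lam → ℝ)) (N : ℕ) (p : ℝ) (hp : 0 < p)
    (hN : 2 ≤ (N : ℝ) * p) (x y : κ ⊕ lam → ℝ) (hy : ∀ j, 0 ≤ l y j) :
    ‖W l N (pt x y)‖ₑ ^ p ≤ ∏ j, ENNReal.ofReal ((1 + (l x j) ^ 2)⁻¹) := by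
  have h1 : ∀ j, ‖((L l (pt x y) j + I)⁻¹) ^ N‖ ^ p ≤ (1 + (l x j) ^ 2)⁻¹ := by
    intro j
    have h2 := norm_low l x y j (hy j)
    have hpos : (0:ℝ) < 1 + (l x j) ^ 2 := by positivity
    have h3 : (‖(L l (pt x y) j + I)⁻¹‖ ^ 2) ≤ (1 + (l x j) ^ 2)⁻¹ := by
      rw [norm_inv, inv_pow]
      exact inv_anti₀ hpos h2
    have h4 : ‖((L l (pt x y) j + I)⁻¹) ^ N‖ ^ p =
        (‖(L l (pt x y) j + I)⁻¹‖ ^ 2) ^ ((N:ℝ) * p / 2) := by
      rw [norm_pow, ← Real.rpow_natCast, ← Real.rpow_natCast, ← Real.rpow_mul (norm_nonneg _),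
        ← Real.rpow_mul (norm_nonneg _)]
      congr 1
      push_cast
      ring
    rw [h4]
    have h5 : (1 + (l x j) ^ 2)⁻¹ ≤ 1 := inv_le_one_of_one_le₀ (by nlinarith [sq_nonneg (l x j)])
    calc (‖(L l (pt x y) j + I)⁻¹‖ ^ 2) ^ ((N:ℝ) * p / 2)
        ≤ ((1 + (l x j) ^ 2)⁻¹) ^ ((N:ℝ) * p / 2) :=
          Real.rpow_le_rpow (by positivity) h3 (by linarith)
      _ ≤ ((1 + (l x j) ^ 2)⁻¹) ^ (1:ℝ) :=
          Real.rpow_le_rpow_of_exponent_ge (by positivity) h5 (by linarith)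
      _ = (1 + (l x j) ^ 2)⁻¹ := Real.rpow_one _
  have h6 : ‖W l N (pt x y)‖ₑ ^ p = ENNReal.ofReal (‖W l N (pt x y)‖ ^ p) := by
    rw [← ofReal_norm, ENNReal.ofReal_rpow_of_nonneg (norm_nonneg _) hp.le]
  rw [h6, ← ENNReal.ofReal_prod_of_nonneg (fun j _ => by positivity)]
  apply ENNReal.ofReal_le_ofReal
  rw [W, norm_prod, ← Real.finsetProd_rpow _ _ (fun j _ => norm_nonneg _)]
  exact Finset.prod_le_prod (fun j _ => by positivity) (fun j _ => h1 j)

end TraX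

open TraX Complex in
theorem t_TRA : TRA := by
  intro hTRB κ lam _ _ Γ₁ Γ hproj hlift l hl hinj p hp G hG hunb
  obtain ⟨hGd, CG, hCG⟩ := hG
  obtain ⟨C, hC⟩ := hTRB κ lam l hinj
  obtain ⟨N, hN⟩ := exists_nat_ge (2 / p)
  have hN2 : 2 ≤ (N : ℝ) * p := by rwa [div_le_iff₀ hp] at hN
  refine ⟨fun z => G (fun k => z (Sum.inl k)) * W l N z, ⟨?_, ?_⟩, ?_⟩
  · intro z hz
    have hz' : (fun k => (z k).im) ∈ Γ := hz
    apply DifferentiableWithinAt.mul
    · have h1 := hGd (fun k => z (Sum.inl k)) (hproj _ hz')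
      have h2 : DifferentiableWithinAt ℂ (fun z : κ ⊕ lam → ℂ => (fun k => z (Sum.inl k) : κ → ℂ))
          {z | (fun k => (z k).im) ∈ Γ} z := by
        apply DifferentiableAt.differentiableWithinAt
        fun_prop
      exact DifferentiableWithinAt.comp z h1 h2 (fun w hw => hproj _ hw)
    · exact (W_diff l N z (hl _ hz')).differentiableWithinAt
  · refine ⟨(ENNReal.ofReal CG * ENNReal.ofReal C).toReal, ?_⟩
    intro y hy
    rw [ENNReal.ofReal_toReal (ENNReal.mul_ne_top ENNReal.ofReal_ne_top ENNReal.ofReal_ne_top)]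
    let e := MeasurableEquiv.sumPiEquivProdPi (fun _ : κ ⊕ lam => ℝ)
    have he := volume_measurePreserving_sumPiEquivProdPi_symm (fun _ : κ ⊕ lam => ℝ)
    rw [← he.lintegral_comp_emb e.symm.measurableEmbedding]
    refine (lintegral_prod_le _).trans ?_
    have hes : ∀ (x₁ : κ → ℝ) (x₂ : lam → ℝ), e.symm (x₁, x₂) = Sum.elim x₁ x₂ := by
      intro x₁ x₂
      ext k
      cases k <;> rfl
    have hin : ∀ x₁ : κ → ℝ, ∫⁻ x₂ : lam → ℝ,
        ‖G (fun k => pt (e.symm (x₁, x₂)) y (Sum.inl k)) * W l N (pt (e.symm (x₁, x₂)) y)‖ₑ ^ p ≤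
        ‖G (pt x₁ (fun k => y (Sum.inl k)))‖ₑ ^ p * ENNReal.ofReal C := by
      intro x₁
      have h1 : ∀ x₂ : lam → ℝ,
        ‖G (fun k => pt (e.symm (x₁, x₂)) y (Sum.inl k)) * W l N (pt (e.symm (x₁, x₂)) y)‖ₑ ^ p ≤
        ‖G (pt x₁ (fun k => y (Sum.inl k)))‖ₑ ^ p *
          ∏ j, ENNReal.ofReal ((1 + (l (Sum.elim x₁ x₂) j) ^ 2)⁻¹) := by
        intro x₂
        rw [hes, enorm_mul, ENNReal.mul_rpow_of_nonneg _ _ hp.le]
        have h2 : (fun k => pt (Sum.elim x₁ x₂) y (Sum.inl k)) = pt x₁ (fun k => y (Sum.inl k)) :=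
          rfl
        rw [h2]
        exact mul_le_mul_right (W_up l N p hp hN2 (Sum.elim x₁ x₂) y (hl y hy)) _
      refine (lintegral_mono h1).trans ?_
      rw [lintegral_const_mul' _ _ (ENNReal.rpow_ne_top_of_nonneg hp.le enorm_ne_top)]
      exact mul_le_mul_right (hC x₁) _
    refine (lintegral_mono hin).trans ?_
    rw [lintegral_mul_const' _ _ ENNReal.ofReal_ne_top]
    exact mul_le_mul_left (hCG _ (hproj y hy)) _
  · have hq : Measure.QuasiMeasurePreserving (fun x : κ ⊕ lam → ℝ => (fun k => x (Sum.inl k)))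
        volume volume := by
      have h1 := (volume_measurePreserving_sumPiEquivProdPi
        (fun _ : κ ⊕ lam => ℝ)).quasiMeasurePreserving
      exact Measure.quasiMeasurePreserving_fst.comp h1
    have hae := hq.ae hunb
    filter_upwards [hae] with x hx
    intro M δ hδ
    let B : ℝ := ‖LinearMap.toContinuousLinearMap l‖
    have hB : ∀ y : κ ⊕ lam → ℝ, ∀ j, |l y j| ≤ B * ‖y‖ := by
      intro y j
      have h1 := (LinearMap.toContinuousLinearMap l).le_opNorm y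
      have h2 := norm_le_pi_norm (l y) j
      rw [Real.norm_eq_abs] at h2
      exact h2.trans h1
    have hB0 : 0 ≤ B := norm_nonneg _
    let c : ℝ := ∏ j, ((|l x j| + B + 1)⁻¹) ^ N
    have hc : 0 < c := Finset.prod_pos fun j _ => by positivity
    obtain ⟨η, hη, hη2⟩ := hlift (min δ 1) (lt_min hδ one_pos)
    obtain ⟨y₁, hy₁, hy₁n, hy₁G⟩ := hx (M / c) η hη
    obtain ⟨y, hyΓ, hyn, hyy⟩ := hη2 y₁ hy₁ hy₁n
    refine ⟨y, hyΓ, lt_of_lt_of_le hyn (min_le_left _ _), ?_⟩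
    have hWl : c ≤ ‖W l N (pt x y)‖ := by
      rw [W, norm_prod]
      apply Finset.prod_le_prod (fun j _ => by positivity)
      intro j _
      rw [norm_pow, norm_inv]
      apply pow_le_pow_left₀ (by positivity)
      have h1 : |l y j| ≤ B := by
        refine (hB y j).trans ?_
        have h2 : ‖y‖ ≤ 1 := (lt_of_lt_of_le hyn (min_le_right _ _)).le
        calc B * ‖y‖ ≤ B * 1 := mul_le_mul_of_nonneg_left h2 hB0
          _ = B := mul_one B
      apply inv_anti₀ _ (norm_up l x y j B h1)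
      have h3 := norm_low l x y j (hl y hyΓ j)
      have h4 : L l (pt x y) j + I ≠ 0 := by
        intro h5
        rw [h5, norm_zero] at h3
        nlinarith [sq_nonneg (l x j)]
      exact norm_pos_iff.2 h4
    have h5 : (fun k => pt x y (Sum.inl k)) = pt (fun k => x (Sum.inl k)) y₁ := by
      rw [← hyy]
      rfl
    change M < ‖G (fun k => pt x y (Sum.inl k)) * W l N (pt x y)‖
    rw [h5, norm_mul]
    rw [div_lt_iff₀ hc] at hy₁G
    exact lt_of_lt_of_le hy₁G (mul_le_mul_of_nonneg_left hWl (norm_nonneg _))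

end Pool.Agent.Y263.HT
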