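import Pool.Agent.Y263.HT.Stm

set_option autoImplicit false

/-! Integrability of a product weight under an injective linear map -/

namespace Pool.Agent.Y263.HT

open MeasureTheory Filter Topology

theorem t_TRB : TRB := by
  classical
  intro κ lam _ _ l hl
  let Φ : (lam → ℝ) → ENNReal := fun u => ∏ j, ENNReal.ofReal ((1 + (u j) ^ 2)⁻¹)
  have hΦ : ∀ u, Φ u = ENNReal.ofReal (∏ j, (1 + (u j) ^ 2)⁻¹) := fun u =>
    (ENNReal.ofReal_prod_of_nonneg (fun _ _ => by positivity)).symm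
  have hΦm : Measurable Φ := by
    refine Finset.measurable_prod _ (fun j _ => ?_)
    exact (((measurable_const.add ((measurable_pi_apply j).pow_const 2))).inv).ennreal_ofReal
  have hfin : ∫⁻ u, Φ u < ⊤ := by
    have h1 : Integrable (fun u : lam → ℝ => ∏ j, (1 + (u j) ^ 2)⁻¹) :=
      Integrable.fintype_prod (f := fun _ t => (1 + t ^ 2)⁻¹)
        (fun _ => integrable_inv_one_add_sq)
    have h2 := h1.lintegral_lt_top
    simpa only [hΦ] using h2
  let T : (lam → ℝ) →ₗ[ℝ] (lam → ℝ) :=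
    { toFun := fun v => l (Sum.elim (0 : κ → ℝ) v)
      map_add' := fun v w => by
        rw [← map_add]
        congr 1
        ext i
        rcases i with i | i <;> simp
      map_smul' := fun c v => by
        rw [RingHom.id_apply, ← map_smul]
        congr 1
        ext i
        rcases i with i | i <;> simp }
  have hTv : ∀ v, T v = l (Sum.elim (0 : κ → ℝ) v) := fun _ => rfl
  have hinj : Function.Injective T := (injective_iff_map_eq_zero T).2 (fun v hv => hl v hv)
  let e : (lam → ℝ) ≃ₗ[ℝ] (lam → ℝ) := LinearEquiv.ofInjectiveEndo T hinj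
  have he : ∀ v, e v = T v := fun v => by
    change LinearEquiv.ofInjectiveEndo T hinj v = T v
    rw [LinearEquiv.coe_ofInjectiveEndo]
  have heT : (e : (lam → ℝ) →ₗ[ℝ] (lam → ℝ)) = T := LinearMap.ext he
  have hdet : LinearMap.det T ≠ 0 := by
    rw [← heT]
    exact (LinearEquiv.isUnit_det' e).ne_zero
  have hTm : Measurable T := (LinearMap.continuous_of_finiteDimensional T).measurable
  have hne : ENNReal.ofReal |(LinearMap.det T)⁻¹| * ∫⁻ u, Φ u ≠ ⊤ :=
    ENNReal.mul_ne_top ENNReal.ofReal_ne_top hfin.ne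
  refine ⟨(ENNReal.ofReal |(LinearMap.det T)⁻¹| * ∫⁻ u, Φ u).toReal, fun x₁ => ?_⟩
  rw [ENNReal.ofReal_toReal hne]
  obtain ⟨a, ha⟩ : ∃ a : lam → ℝ, T a = l (Sum.elim x₁ 0) :=
    ⟨e.symm (l (Sum.elim x₁ 0)), by rw [← he, LinearEquiv.apply_symm_apply]⟩
  have h1 : ∀ x₂ : lam → ℝ, l (Sum.elim x₁ x₂) = T (x₂ + a) := by
    intro x₂
    rw [map_add, ha, hTv, ← map_add]
    congr 1
    ext i
    rcases i with i | i <;> simp
  have h2 : ∫⁻ x₂ : lam → ℝ, ∏ j, ENNReal.ofReal ((1 + (l (Sum.elim x₁ x₂) j) ^ 2)⁻¹) =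
      ∫⁻ x₂ : lam → ℝ, Φ (T (x₂ + a)) := by
    refine lintegral_congr (fun x₂ => ?_)
    rw [h1]
  rw [h2, lintegral_add_right_eq_self (fun x => Φ (T x)) a, ← lintegral_map hΦm hTm,
    Real.map_linearMap_volume_pi_eq_smul_volume_pi hdet, lintegral_smul_measure, smul_eq_mul]

end Pool.Agent.Y263.HT
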