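import Pool.Agent.Y263.HT.Gen
import Pool.Agent.Y263.HT.Cor2
import Pool.Agent.Y263.HT.Prev
import Pool.Agent.Y263.HT.Ste
import Pool.Agent.Y263.HT.Pin
import Pool.Agent.Y263.HT.Dif
import Pool.Agent.Y263.HT.Eps
import Pool.Agent.Y263.HT.Lp
import Pool.Agent.Y263.HT.Trb
import Pool.Agent.Y263.HT.Tra
import Pool.Agent.Y263.HT.Dua
import Pool.Agent.Y263.HT.Syo
import Pool.Agent.Y263.HT.Fib
import Pool.Agent.Y263.HT.Lin
import Pool.Agent.Y263.HT.Spl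
import Pool.Agent.Y263.HT.Img
import Pool.Agent.Y263.HT.Prd
import Pool.Agent.Y263.HT.Hep
import Pool.Agent.Y263.HT.Her

set_option autoImplicit false

/-! Project HT: the theorems. -/

namespace Pool.Agent.Y263.HT

open MeasureTheory Filter Topology
open scoped ComplexOrder

/-- `F (x + i y)` is unbounded and has no limit as `y → 0` in `Γ`. -/
def DivergesAt {ι : Type} [Fintype ι] (Γ : Set (ι → ℝ)) (F : (ι → ℂ) → ℂ) (x : ι → ℝ) : Prop :=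
  (∀ M δ : ℝ, 0 < δ → ∃ y ∈ Γ, ‖y‖ < δ ∧ M < ‖F (pt x y)‖) ∧
    ∀ l : ℂ, ¬ Tendsto (fun y : ι → ℝ => F (pt x y)) (𝓝[Γ] 0) (𝓝 l)

/-- Divergence almost everywhere, for one `G ∈ H^p` and for almost all `F + c G`, `F ∈ H^p`. -/
def TypicalDivergence {ι : Type} [Fintype ι] (Γ : Set (ι → ℝ)) (p : ℝ) : Prop :=
  ∃ G : (ι → ℂ) → ℂ, InHardy Γ p G ∧ (∀ᵐ x : ι → ℝ, DivergesAt Γ G x) ∧
    ∀ F : (ι → ℂ) → ℂ, InHardy Γ p F → ∀ᵐ c : ℝ,
      InHardy Γ p (fun z => F z + (c : ℂ) * G z) ∧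
      ∀ᵐ x : ι → ℝ, DivergesAt Γ (fun z => F z + (c : ℂ) * G z) x

theorem div_of_unb {ι : Type} [Fintype ι] {Γ : Set (ι → ℝ)} (hΓ : IsOpen Γ) {p : ℝ} (hp : 0 < p)
    (h : ∃ G : (ι → ℂ) → ℂ, InHardy Γ p G ∧ ∀ᵐ x : ι → ℝ, UnboundedAt Γ G x) :
    TypicalDivergence Γ p := by
  obtain ⟨G, hG, hu⟩ := h
  refine ⟨G, hG, ?_, fun F hF => ?_⟩
  · filter_upwards [hu] with x hx
    exact ⟨hx, fun l => no_limit hx l⟩
  · filter_upwards [prevalent Γ hΓ hF.1 hG.1 hu] with c hc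
    refine ⟨hardy_add hp hF hG _, ?_⟩
    filter_upwards [hc] with x hx
    exact ⟨hx, fun l => no_limit hx l⟩

/-- The dichotomy. -/
theorem dich {ι : Type} [Fintype ι] (Γ : Set (ι → ℝ)) (hΓ : IsOpen Γ) (p : ℝ) (hp : 0 < p) :
    (∀ F : (ι → ℂ) → ℂ, InHardy Γ p F → ∀ᵐ x : ι → ℝ,
      ∃ M δ : ℝ, 0 < δ ∧ ∀ y ∈ Γ, ‖y‖ < δ → ‖F (pt x y)‖ ≤ M) ∨
    TypicalDivergence Γ p := by
  by_cases h : ∀ F : (ι → ℂ) → ℂ, InHardy Γ p F → ∀ᵐ x : ι → ℝ, ¬ UnboundedAt Γ F x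
  · left
    intro F hF
    filter_upwards [h F hF] with x hx
    unfold UnboundedAt at hx
    push Not at hx
    obtain ⟨M, δ, hδ, hM⟩ := hx
    exact ⟨M, δ, hδ, hM⟩
  · right
    rw [not_forall] at h
    obtain ⟨F, h⟩ := h
    rw [Classical.not_imp] at h
    obtain ⟨hF, hne⟩ := h
    exact div_of_unb hΓ hp (core t_STE t_PIN t_DIF t_EPS t_LP Γ hΓ p hp F hF hne)

/-- The starting theorem. -/
def START : Prop := ∀ (m : ℕ) (p : ℝ), 0 < p → ∃ F : (Fin (m + 3) → ℂ) → ℂ,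
      InHardy (lightCone m) p F ∧ ∃ E : Set (Fin (m + 3) → ℝ), MeasurableSet E ∧ 0 < volume E ∧
        ∀ x ∈ E, UnboundedAt (lightCone m) F x

/-- The divergence theorem for the light cones, from divergence on a set of positive measure. -/
theorem light (hstart : START) (m : ℕ) (p : ℝ) (hp : 0 < p) :
    ∃ G : (Fin (m + 3) → ℂ) → ℂ, InHardy (lightCone m) p G ∧
      ∀ᵐ x : Fin (m + 3) → ℝ, UnboundedAt (lightCone m) G x := by
  obtain ⟨F, hF, E, hE, hE0, hEu⟩ := hstart m p hp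
  refine core t_STE t_PIN t_DIF t_EPS t_LP (lightCone m) (t_LCR m).1 p hp F hF ?_
  intro hall
  rw [ae_iff] at hall
  have : volume E ≤ 0 := by
    rw [← hall]
    refine measure_mono fun x hx => ?_
    simpa using hEu x hx
  exact absurd hE0 (not_lt.2 this)

theorem general (hstart : START)
    {ι : Type} [Fintype ι] (Γ : Set (ι → ℝ)) (hΓ : IsRegularCone Γ) (m : ℕ)
    (π : (ι → ℝ) →ₗ[ℝ] (Fin (m + 3) → ℝ)) (hπ : MapsOnto Γ (lightCone m) π) (p : ℝ) (hp : 0 < p) :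
    TypicalDivergence Γ p := by
  obtain ⟨G, hG, hu⟩ := light hstart m p hp
  have hr := t_LCR m
  exact div_of_unb hΓ.1 hp (gen t_DUA t_FIB t_TRB t_TRA t_LIN t_SPL t_IMG Γ hΓ (lightCone m) hr.1
    hr.2.2.2.1 π hπ p hp G hG hu)

theorem zero_notMem_light (m : ℕ) : (0 : Fin (m + 3) → ℝ) ∉ lightCone m := by
  intro h
  have := h.1
  simp at this

theorem prods (hstart : START)
    {lam : Type} [Fintype lam] (Γ₂ : Set (lam → ℝ)) (hΓ₂ : IsRegularCone Γ₂) (m : ℕ) (p : ℝ)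
    (hp : 0 < p) : TypicalDivergence (prodCone (lightCone m) Γ₂) p := by
  obtain ⟨h1, h2⟩ := t_PRD (Fin (m + 3)) lam (lightCone m) Γ₂ (t_LCR m) hΓ₂ (zero_notMem_light m)
  exact general hstart _ h1 m _ h2 p hp

theorem herm (hstart : START) (r : ℕ) (p : ℝ) (hp : 0 < p) :
    TypicalDivergence {y : Fin (r + 2) × Fin (r + 2) → ℝ | (hermMat y).PosDef} p :=
  general hstart _ (t_HER r) 1 (hermProj r) (t_HEP r) p hp

theorem symm (hstart : START) (r : ℕ) (p : ℝ) (hp : 0 < p) :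
    TypicalDivergence {y : Fin 3 ⊕ Off r → ℝ | (symMat r y).PosDef} p := by
  obtain ⟨G, hG, hu⟩ := light hstart 0 p hp
  obtain ⟨h1, h2, l, hl, hinj⟩ := t_PDC r
  exact div_of_unb (Syo.isOpen_pd r) hp (t_TRA t_TRB (Fin 3) (Off r) (lightCone 0) _ h1 h2 l hl hinj p hp G hG hu)

end Pool.Agent.Y263.HT
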